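import Mathlib

/-!
# Approximation property of Lipschitz free `p`-spaces over spaces with scattered completion

Main theorem (`result`): let `0 < p ≤ 1` and let `M` be a metric space whose completion is
scattered (for instance a complete discrete metric space).  Then the Lipschitz free `p`-space
`F_p(M)` has the approximation property.

Method: for a bounded Lipschitz function `g` with bounded support there's an operator `T_g` on
`F_p(M)` with `T_g (δ x) = g x • δ x`.  Compact reduction: on a compact set, `T_g` is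
approximated by `T_{g b_1 ... b_n}`, where `b_k` is a bump function around a finite set `F_k`,
its Lipschitz constant `2 ^ k` being fixed BEFORE `F_k` is chosen; the supports of the functions
`g b_1 ... b_n` shrink to a compact set.  This gives the locality of the class of open sets
`U` for which all `T_g` with `g` supported in `U` are approximable by finite rank operators.
An isolated point `a` of the complement of the largest such `U` is then dealt with by the
uniformly bounded operators `δ x ↦ g x c_s(x) (δ x - δ a)`, `c_s` a cut-off at scale `s` around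
`a`.
-/

set_option autoImplicit false

open Set Filter Topology Metric

namespace Pool.Agent.helper27.AP7.ScatteredAP

universe u

/-- `X` is a `p`-normed space: its group norm is `p`-homogeneous, i.e. `x ↦ ‖x‖ ^ (1/p)` is a
`p`-norm (and the group norm is the `p`-th power of that `p`-norm). -/
class PNormed (p : ℝ) (X : Type*) [NormedAddCommGroup X] [Module ℝ X] : Prop where
  norm_smul : ∀ (a : ℝ) (x : X), ‖a • x‖ = |a| ^ p * ‖x‖

/-- `(X, δ)` is the Lipschitz free `p`-space over the pointed metric space `(M, o)`.  Here `X` is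
a `p`-Banach space (a complete `p`-normed space; recall that the group norm `‖·‖` is the `p`-th
power of the `p`-norm), `δ` maps `o` to `0`, is isometric for the `p`-norm
(`‖δ x - δ y‖ = dist x y ^ p`), the linear span of its range is dense, and every map `f` into a
`p`-Banach space `Y` which vanishes at `o` and is Lipschitz with constant `L` for the `p`-norm of
`Y` factors as `f = T ∘ δ` for a unique bounded linear operator `T`, and `T` has norm at most `L`
for the `p`-norms. -/
structure IsLipFree (p : ℝ) {M : Type*} {X : Type u} [MetricSpace M] [NormedAddCommGroup X]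
    [Module ℝ X] (o : M) (δ : M → X) : Prop where
  complete : CompleteSpace X
  pnormed : PNormed p X
  map_base : δ o = 0
  norm_sub : ∀ x y, ‖δ x - δ y‖ = dist x y ^ p
  dense_span : Dense (Submodule.span ℝ (range δ) : Set X)
  exists_lift : ∀ (Y : Type u) [NormedAddCommGroup Y] [Module ℝ Y] [CompleteSpace Y]
    [PNormed p Y] (f : M → Y) (L : ℝ), 0 ≤ L → f o = 0 →
    (∀ x y, ‖f x - f y‖ ≤ (L * dist x y) ^ p) →
    ∃! T : X →L[ℝ] Y, (∀ x, T (δ x) = f x) ∧ ∀ v, ‖T v‖ ≤ L ^ p * ‖v‖

/-- The approximation property: the identity is approximated, uniformly on every compact set,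
by bounded linear operators of finite rank. -/
def HasAP (X : Type*) [NormedAddCommGroup X] [Module ℝ X] : Prop :=
  ∀ K : Set X, IsCompact K → ∀ ε > 0, ∃ T : X →L[ℝ] X,
    FiniteDimensional ℝ (LinearMap.range (T : X →ₗ[ℝ] X)) ∧ ∀ x ∈ K, ‖T x - x‖ < ε

/-- A topological space is scattered if every nonempty subset `S` has a point `a` which is
isolated in `S`. -/
def IsScattered (Z : Type*) [TopologicalSpace Z] : Prop :=
  ∀ S : Set Z, S.Nonempty → ∃ a ∈ S, ∃ U : Set Z, IsOpen U ∧ U ∩ S = {a}

section basics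

variable {p : ℝ} {X : Type u} [NormedAddCommGroup X] [Module ℝ X]

lemma continuousSMul_of_pnormed (hp : 0 < p) (h : PNormed p X) : ContinuousSMul ℝ X := by
  have hn := h.norm_smul
  refine ContinuousSMul.of_nhds_zero ?_ ?_ ?_
  · rw [tendsto_zero_iff_norm_tendsto_zero]
    have : Tendsto (fun q : ℝ × X => |q.1| ^ p * ‖q.2‖) (𝓝 0 ×ˢ 𝓝 0) (𝓝 (|0| ^ p * ‖(0:X)‖)) := by
      rw [← nhds_prod_eq]
      have hc : Continuous (fun q : ℝ × X => |q.1| ^ p * ‖q.2‖) :=
        ((continuous_abs.comp continuous_fst).rpow_const (fun _ => Or.inr hp.le)).mul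
          (continuous_norm.comp continuous_snd)
      exact hc.tendsto (0, 0)
    simpa [hn] using this
  · intro m
    rw [tendsto_zero_iff_norm_tendsto_zero]
    have : Tendsto (fun a : ℝ => |a| ^ p * ‖m‖) (𝓝 0) (𝓝 (|0| ^ p * ‖m‖)) := by
      have hc : Continuous (fun a : ℝ => |a| ^ p * ‖m‖) :=
        ((continuous_abs).rpow_const (fun _ => Or.inr hp.le)).mul continuous_const
      exact hc.tendsto 0
    simpa [hn, Real.zero_rpow hp.ne'] using this
  · intro a
    rw [tendsto_zero_iff_norm_tendsto_zero]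
    have : Tendsto (fun m : X => |a| ^ p * ‖m‖) (𝓝 0) (𝓝 (|a| ^ p * ‖(0:X)‖)) := by
      have hc : Continuous (fun m : X => |a| ^ p * ‖m‖) := continuous_const.mul continuous_norm
      exact hc.tendsto 0
    simpa [hn] using this

/-- The set of operators which can be approximated by finite rank operators uniformly on compact
sets. -/
def Approx (T : X →L[ℝ] X) : Prop :=
  ∀ K : Set X, IsCompact K → ∀ ε > 0, ∃ V : X →L[ℝ] X,
    FiniteDimensional ℝ (LinearMap.range (V : X →ₗ[ℝ] X)) ∧ ∀ x ∈ K, ‖V x - T x‖ < ε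

lemma Approx.of_finite {T : X →L[ℝ] X}
    (hT : FiniteDimensional ℝ (LinearMap.range (T : X →ₗ[ℝ] X))) : Approx T := by
  intro K _ ε hε
  exact ⟨T, hT, fun x _ => by simpa using hε⟩

lemma Approx.add {S T : X →L[ℝ] X} (hS : Approx S) (hT : Approx T) : Approx (S + T) := by
  intro K hK ε hε
  obtain ⟨V, hV, hV'⟩ := hS K hK (ε / 2) (by positivity)
  obtain ⟨W, hW, hW'⟩ := hT K hK (ε / 2) (by positivity)
  refine ⟨V + W, ?_, fun x hx => ?_⟩
  · have : LinearMap.range ((V + W : X →L[ℝ] X) : X →ₗ[ℝ] X) ≤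
        LinearMap.range (V : X →ₗ[ℝ] X) ⊔ LinearMap.range (W : X →ₗ[ℝ] X) := by
      rintro _ ⟨x, rfl⟩
      exact Submodule.add_mem_sup ⟨x, rfl⟩ ⟨x, rfl⟩
    exact Submodule.finiteDimensional_of_le this
  · have h1 := hV' x hx
    have h2 := hW' x hx
    have : (V + W) x - (S + T) x = (V x - S x) + (W x - T x) := by
      simp only [_root_.add_apply]; abel
    rw [this]
    calc _ ≤ ‖V x - S x‖ + ‖W x - T x‖ := norm_add_le _ _
      _ < ε := by linarith

lemma Approx.of_close {T : X →L[ℝ] X}
    (h : ∀ K : Set X, IsCompact K → ∀ ε > 0, ∃ S : X →L[ℝ] X, Approx S ∧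
      ∀ x ∈ K, ‖S x - T x‖ < ε) : Approx T := by
  intro K hK ε hε
  obtain ⟨S, hS, hS'⟩ := h K hK (ε / 2) (by positivity)
  obtain ⟨V, hV, hV'⟩ := hS K hK (ε / 2) (by positivity)
  refine ⟨V, hV, fun x hx => ?_⟩
  have h1 := hS' x hx
  have h2 := hV' x hx
  calc ‖V x - T x‖ = ‖(V x - S x) + (S x - T x)‖ := by congr 1; abel
    _ ≤ ‖V x - S x‖ + ‖S x - T x‖ := norm_add_le _ _
    _ < ε := by linarith

end basics
section core

variable {p : ℝ} {M : Type*} [MetricSpace M] {X : Type u} [NormedAddCommGroup X] [Module ℝ X]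
  {o : M} {δ : M → X}

lemma IsLipFree.exists_op (hp : 0 < p) (h : IsLipFree p o δ) (a : M) (g : M → ℝ)
    (L B R : ℝ) (hL : 0 ≤ L) (hB : 0 ≤ B) (hR : 0 ≤ R)
    (hLip : ∀ x y, |g x - g y| ≤ L * dist x y) (hbd : ∀ x, |g x| ≤ B)
    (hsupp : ∀ x, g x ≠ 0 → dist x a ≤ R) (hbase : g o • (δ o - δ a) = 0) :
    ∃ T : X →L[ℝ] X, (∀ x, T (δ x) = g x • (δ x - δ a)) ∧
      ∀ v, ‖T v‖ ≤ ((L * R) ^ p + B ^ p) * ‖v‖ := by
  have := h.complete
  have := h.pnormed
  have hns := h.pnormed.norm_smul
  set C : ℝ := (L * R) ^ p + B ^ p with hC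
  have hC0 : 0 ≤ C := by positivity
  have hC1 : (C ^ (1 / p)) ^ p = C := by
    rw [← Real.rpow_mul hC0, one_div, inv_mul_cancel₀ hp.ne', Real.rpow_one]
  have key : ∀ x y, (g y ≠ 0 ∨ g x = g y) →
      ‖g x • (δ x - δ a) - g y • (δ y - δ a)‖ ≤ C * dist x y ^ p := by
    intro x y hxy
    have e1 : g x • (δ x - δ a) - g y • (δ y - δ a)
        = (g x - g y) • (δ y - δ a) + g x • (δ x - δ y) := by
      simp only [sub_smul, smul_sub]; abel
    have hd : (0:ℝ) ≤ dist x y ^ p := by positivity
    have h2 : |g x| ^ p * dist x y ^ p ≤ B ^ p * dist x y ^ p := by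
      gcongr; exact hbd x
    have h1 : |g x - g y| ^ p * dist y a ^ p ≤ (L * R) ^ p * dist x y ^ p := by
      rcases hxy with hxy | hxy
      · have hR' := hsupp y hxy
        calc |g x - g y| ^ p * dist y a ^ p ≤ (L * dist x y) ^ p * R ^ p := by
              gcongr
              exact hLip x y
          _ = (L * R) ^ p * dist x y ^ p := by
              rw [Real.mul_rpow hL dist_nonneg, Real.mul_rpow hL hR]; ring
      · rw [hxy, sub_self, abs_zero, Real.zero_rpow hp.ne', zero_mul]; positivity
    calc ‖g x • (δ x - δ a) - g y • (δ y - δ a)‖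
        ≤ ‖(g x - g y) • (δ y - δ a)‖ + ‖g x • (δ x - δ y)‖ := by rw [e1]; exact norm_add_le _ _
      _ = |g x - g y| ^ p * dist y a ^ p + |g x| ^ p * dist x y ^ p := by
          rw [hns, hns, h.norm_sub, h.norm_sub]
      _ ≤ C * dist x y ^ p := by rw [hC, add_mul]; linarith
  obtain ⟨T, ⟨hT1, hT2⟩, -⟩ := h.exists_lift X (fun x => g x • (δ x - δ a)) (C ^ (1 / p))
    (by positivity) hbase (by
      intro x y
      rw [Real.mul_rpow (by positivity) dist_nonneg, hC1]
      by_cases hy : g y ≠ 0
      · exact key x y (Or.inl hy)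
      · by_cases hx : g x ≠ 0
        · rw [norm_sub_rev, dist_comm]; exact key y x (Or.inl hx)
        · push Not at hx hy
          exact key x y (Or.inr (by rw [hx, hy])))
  rw [hC1] at hT2
  exact ⟨T, hT1, hT2⟩

lemma IsLipFree.exists_rank_one (hp : 0 < p) (h : IsLipFree p o δ) (g : M → ℝ) (w : X)
    (L : ℝ) (hL : 0 ≤ L) (hLip : ∀ x y, |g x - g y| ≤ L * dist x y) (hbase : g o = 0) :
    ∃ T : X →L[ℝ] X, (∀ x, T (δ x) = g x • w) ∧
      FiniteDimensional ℝ (LinearMap.range (T : X →ₗ[ℝ] X)) := by
  have := h.complete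
  have := h.pnormed
  have := continuousSMul_of_pnormed hp h.pnormed
  have hns := h.pnormed.norm_smul
  obtain ⟨T, ⟨hT1, hT2⟩, -⟩ := h.exists_lift X (fun x => g x • w) (L * ‖w‖ ^ (1 / p))
    (by positivity) (by simp [hbase]) (by
      intro x y
      rw [← sub_smul, hns, Real.mul_rpow (by positivity) dist_nonneg,
        Real.mul_rpow hL (by positivity), ← Real.rpow_mul (norm_nonneg _), one_div,
        inv_mul_cancel₀ hp.ne', Real.rpow_one]
      calc |g x - g y| ^ p * ‖w‖ ≤ (L * dist x y) ^ p * ‖w‖ := by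
            gcongr; exact hLip x y
        _ = L ^ p * ‖w‖ * dist x y ^ p := by rw [Real.mul_rpow hL dist_nonneg]; ring)
  refine ⟨T, hT1, ?_⟩
  set S : Submodule ℝ X := Submodule.span ℝ {w} with hS
  have : FiniteDimensional ℝ S := by rw [hS]; infer_instance
  have hcl : IsClosed (S : Set X) := S.closed_of_finiteDimensional
  have hle : LinearMap.range (T : X →ₗ[ℝ] X) ≤ S := by
    rintro _ ⟨v, rfl⟩
    have hpre : IsClosed ((fun v => T v) ⁻¹' (S : Set X)) := hcl.preimage T.continuous
    have hsub : (Submodule.span ℝ (range δ) : Set X) ⊆ (fun v => T v) ⁻¹' (S : Set X) := by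
      have : Submodule.span ℝ (range δ) ≤ S.comap (T : X →ₗ[ℝ] X) := by
        rw [Submodule.span_le]
        rintro _ ⟨x, rfl⟩
        simp only [Submodule.comap_coe, mem_preimage, SetLike.mem_coe,
          ContinuousLinearMap.coe_coe, hT1]
        exact S.smul_mem _ (Submodule.mem_span_singleton_self w)
      exact this
    have := (hpre.closure_subset_iff.2 hsub) (h.dense_span v)
    exact this
  exact Submodule.finiteDimensional_of_le hle

lemma IsLipFree.ext (h : IsLipFree p o δ) {S T : X →L[ℝ] X} (hST : ∀ x, S (δ x) = T (δ x)) :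
    S = T :=
  ContinuousLinearMap.ext_on h.dense_span (by rintro _ ⟨x, rfl⟩; exact hST x)

/-- Approximation of points of a compact set by points of the span of a finite subset of `δ M`. -/
lemma IsLipFree.exists_finite_approx (h : IsLipFree p o δ) {K : Set X} (hK : IsCompact K)
    {ε : ℝ} (hε : 0 < ε) :
    ∃ F : Finset M, o ∈ F ∧ ∀ w ∈ K, ∃ v ∈ Submodule.span ℝ (δ '' (F : Set M)), ‖w - v‖ < ε := by
  classical
  -- for each point `v` of the span there's a finite set
  have h1 : ∀ v ∈ Submodule.span ℝ (range δ), ∃ F : Finset M,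
      v ∈ Submodule.span ℝ (δ '' (F : Set M)) := by
    intro v hv
    induction hv using Submodule.span_induction with
    | mem x hx =>
        obtain ⟨y, rfl⟩ := hx
        exact ⟨{y}, Submodule.subset_span ⟨y, by simp, rfl⟩⟩
    | zero => exact ⟨∅, Submodule.zero_mem _⟩
    | add x y _ _ hx hy =>
        obtain ⟨F, hF⟩ := hx
        obtain ⟨G, hG⟩ := hy
        refine ⟨F ∪ G, Submodule.add_mem _ ?_ ?_⟩
        · exact Submodule.span_mono (image_mono (by simp)) hF
        · exact Submodule.span_mono (image_mono (by simp)) hG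
    | smul a x _ hx =>
        obtain ⟨F, hF⟩ := hx
        exact ⟨F, Submodule.smul_mem _ _ hF⟩
  choose! F hF using h1
  obtain ⟨t, -, htf, ht⟩ := hK.finite_cover_balls (half_pos hε)
  have h2 : ∀ x : X, ∃ v ∈ Submodule.span ℝ (range δ), ‖x - v‖ < ε / 2 := by
    intro x
    obtain ⟨v, hv, hxv⟩ := Metric.mem_closure_iff.1 (h.dense_span x) (ε / 2) (half_pos hε)
    exact ⟨v, hv, by rwa [dist_eq_norm] at hxv⟩
  choose v hv hv' using h2
  refine ⟨insert o (htf.toFinset.biUnion (fun x => F (v x))), by simp, fun w hw => ?_⟩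
  obtain ⟨x, hx, hwx⟩ := mem_iUnion₂.1 (ht hw)
  refine ⟨v x, ?_, ?_⟩
  · refine Submodule.span_mono (image_mono ?_) (hF _ (hv x))
    intro y hy
    simp only [Finset.coe_insert, Finset.coe_biUnion]
    exact Or.inr (mem_iUnion₂.2 ⟨x, by simpa using hx, hy⟩)
  · rw [mem_ball, dist_eq_norm] at hwx
    calc ‖w - v x‖ = ‖(w - x) + (x - v x)‖ := by congr 1; abel
      _ ≤ ‖w - x‖ + ‖x - v x‖ := norm_add_le _ _
      _ < ε := by have := hv' x; linarith

/-- Uniformly bounded operators converging on the points `δ x` converge uniformly on compact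
sets. -/
lemma IsLipFree.unif_of_pointwise (h : IsLipFree p o δ) (C : ℝ)
    (T : ℕ → X →L[ℝ] X) (hT : ∀ n v, ‖T n v‖ ≤ C * ‖v‖) (T' : X →L[ℝ] X)
    (hT' : ∀ v, ‖T' v‖ ≤ C * ‖v‖)
    (hc : ∀ x, Tendsto (fun n => T n (δ x)) atTop (𝓝 (T' (δ x)))) (hp : 0 < p)
    {K : Set X} (hK : IsCompact K) {ε : ℝ} (hε : 0 < ε) :
    ∃ n, ∀ w ∈ K, ‖T n w - T' w‖ < ε := by
  classical
  have := continuousSMul_of_pnormed hp h.pnormed
  have h1 : ∀ v ∈ Submodule.span ℝ (range δ), Tendsto (fun n => T n v) atTop (𝓝 (T' v)) := by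
    intro v hv
    induction hv using Submodule.span_induction with
    | mem x hx => obtain ⟨y, rfl⟩ := hx; exact hc y
    | zero => simp
    | add x y _ _ hx hy => simpa using hx.add hy
    | smul a x _ hx => simpa using hx.const_smul a
  set C' : ℝ := |C| + 1 with hC'
  have hC'0 : 0 < C' := by positivity
  have hCC' : C ≤ C' := by have := le_abs_self C; linarith
  obtain ⟨t, -, htf, ht⟩ := hK.finite_cover_balls (show 0 < ε / (6 * C') by positivity)
  have h2 : ∀ x : X, ∃ v ∈ Submodule.span ℝ (range δ), ‖x - v‖ < ε / (6 * C') := by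
    intro x
    obtain ⟨v, hv, hxv⟩ := Metric.mem_closure_iff.1 (h.dense_span x) (ε / (6 * C'))
      (by positivity)
    exact ⟨v, hv, by rwa [dist_eq_norm] at hxv⟩
  choose v hv hv' using h2
  have h3 : ∀ᶠ n in atTop, ∀ x ∈ htf.toFinset, ‖T n (v x) - T' (v x)‖ < ε / 3 := by
    rw [Filter.eventually_all_finset]
    intro x _
    have := h1 (v x) (hv x)
    rw [tendsto_iff_norm_sub_tendsto_zero] at this
    exact this.eventually (gt_mem_nhds (by positivity))
  obtain ⟨n, hn⟩ := h3.exists
  refine ⟨n, fun w hw => ?_⟩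
  obtain ⟨x, hx, hwx⟩ := mem_iUnion₂.1 (ht hw)
  rw [mem_ball, dist_eq_norm] at hwx
  have hwv : ‖w - v x‖ < ε / (3 * C') := by
    calc ‖w - v x‖ = ‖(w - x) + (x - v x)‖ := by congr 1; abel
      _ ≤ ‖w - x‖ + ‖x - v x‖ := norm_add_le _ _
      _ < ε / (6 * C') + ε / (6 * C') := add_lt_add hwx (hv' x)
      _ = ε / (3 * C') := by field_simp; ring
  have hb : C' * ‖w - v x‖ < ε / 3 := by
    calc C' * ‖w - v x‖ < C' * (ε / (3 * C')) := by gcongr
      _ = ε / 3 := by field_simp
  have e1 : T n w - T' w = T n (w - v x) + (T n (v x) - T' (v x)) - T' (w - v x) := by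
    simp only [map_sub]; abel
  have hn' := hn x (by simpa using hx)
  have hb1 : ‖T n (w - v x)‖ ≤ C' * ‖w - v x‖ := (hT n _).trans (by gcongr)
  have hb2 : ‖T' (w - v x)‖ ≤ C' * ‖w - v x‖ := (hT' _).trans (by gcongr)
  rw [e1]
  calc _ ≤ ‖T n (w - v x) + (T n (v x) - T' (v x))‖ + ‖T' (w - v x)‖ := norm_sub_le _ _
    _ ≤ ‖T n (w - v x)‖ + ‖T n (v x) - T' (v x)‖ + ‖T' (w - v x)‖ := by
        gcongr; exact norm_add_le _ _
    _ < ε := by linarith

/-- A cut-off function of a real variable: `1` for `t ≤ 1` and `0` for `2 ≤ t`. -/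
noncomputable def cut (t : ℝ) : ℝ := max 0 (min 1 (2 - t))

lemma cut_nonneg (t : ℝ) : 0 ≤ cut t := le_max_left _ _

lemma cut_le_one (t : ℝ) : cut t ≤ 1 := max_le zero_le_one (min_le_left _ _)

lemma cut_eq_one {t : ℝ} (h : t ≤ 1) : cut t = 1 := by
  unfold cut
  rw [min_eq_left (by linarith), max_eq_right zero_le_one]

lemma cut_eq_zero {t : ℝ} (h : 2 ≤ t) : cut t = 0 := by
  unfold cut
  exact max_eq_left ((min_le_right _ _).trans (by linarith))

lemma cut_lip (s t : ℝ) : |cut s - cut t| ≤ |s - t| := by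
  unfold cut
  calc |max 0 (min 1 (2 - s)) - max 0 (min 1 (2 - t))|
      ≤ max |0 - 0| |min 1 (2 - s) - min 1 (2 - t)| := abs_max_sub_max_le_max _ _ _ _
    _ = |min 1 (2 - s) - min 1 (2 - t)| := by simp
    _ ≤ max |1 - 1| |(2 - s) - (2 - t)| := abs_min_sub_min_le_max _ _ _ _
    _ = |s - t| := by
        simp only [sub_self, abs_zero, sub_sub_sub_cancel_left, abs_nonneg, sup_of_le_right]
        exact abs_sub_comm _ _

/-- The bump function around `z` of radius `r`. -/
noncomputable def bump (z : M) (r : ℝ) (x : M) : ℝ := cut (dist x z / r)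

/-- The bump function around a set. -/
noncomputable def sbump (F : Set M) (r : ℝ) (x : M) : ℝ := cut (infDist x F / r)

lemma bump_lip (z : M) {r : ℝ} (hr : 0 < r) (x y : M) :
    |bump z r x - bump z r y| ≤ (1 / r) * dist x y := by
  unfold bump
  refine (cut_lip _ _).trans ?_
  rw [← sub_div, abs_div, abs_of_pos hr, one_div, inv_mul_eq_div]
  gcongr
  exact abs_dist_sub_le x y z

lemma sbump_lip (F : Set M) {r : ℝ} (hr : 0 < r) (x y : M) :
    |sbump F r x - sbump F r y| ≤ (1 / r) * dist x y := by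
  unfold sbump
  refine (cut_lip _ _).trans ?_
  rw [← sub_div, abs_div, abs_of_pos hr, one_div, inv_mul_eq_div]
  gcongr
  rw [abs_sub_le_iff]
  constructor
  · have := @infDist_le_infDist_add_dist _ _ F x y
    linarith
  · have := @infDist_le_infDist_add_dist _ _ F y x
    rw [dist_comm] at this
    linarith

/-- Bounded Lipschitz functions with bounded support. -/
structure Adm (o : M) (g : M → ℝ) (L B R : ℝ) : Prop where
  L0 : 0 ≤ L
  B0 : 0 ≤ B
  R0 : 0 ≤ R
  lip : ∀ x y, |g x - g y| ≤ L * dist x y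
  bdd : ∀ x, |g x| ≤ B
  supp : ∀ x, g x ≠ 0 → dist x o ≤ R

lemma Adm.mul {g : M → ℝ} {L B R : ℝ} (hg : Adm o g L B R) {φ : M → ℝ} {K : ℝ} (hK : 0 ≤ K)
    (h0 : ∀ x, 0 ≤ φ x) (h1 : ∀ x, φ x ≤ 1) (hφ : ∀ x y, |φ x - φ y| ≤ K * dist x y) :
    Adm o (fun x => g x * φ x) (L + B * K) B R where
  L0 := by have := hg.L0; have := hg.B0; positivity
  B0 := hg.B0
  R0 := hg.R0
  lip := by
    intro x y
    have e : g x * φ x - g y * φ y = (g x - g y) * φ x + g y * (φ x - φ y) := by ring
    have hB := hg.B0
    have hL := hg.L0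
    have a1 := hg.lip x y
    have a2 := hg.bdd y
    have a3 := hφ x y
    have a4 : |φ x| ≤ 1 := by rw [abs_of_nonneg (h0 x)]; exact h1 x
    calc |g x * φ x - g y * φ y| ≤ |(g x - g y) * φ x| + |g y * (φ x - φ y)| := by
          rw [e]; exact abs_add_le _ _
      _ = |g x - g y| * |φ x| + |g y| * |φ x - φ y| := by rw [abs_mul, abs_mul]
      _ ≤ (L * dist x y) * 1 + B * (K * dist x y) := by gcongr
      _ = (L + B * K) * dist x y := by ring
  bdd := by
    intro x
    have hB := hg.B0
    have a2 := hg.bdd x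
    have a4 : |φ x| ≤ 1 := by rw [abs_of_nonneg (h0 x)]; exact h1 x
    calc |g x * φ x| = |g x| * |φ x| := abs_mul _ _
      _ ≤ B * 1 := by gcongr
      _ = B := mul_one _
  supp := by
    intro x hx
    exact hg.supp x (fun h => hx (by simp [h]))

lemma IsLipFree.exists_mulOp (hp : 0 < p) (h : IsLipFree p o δ) {g : M → ℝ} {L B R : ℝ}
    (hg : Adm o g L B R) :
    ∃ T : X →L[ℝ] X, (∀ x, T (δ x) = g x • δ x) ∧
      ∀ v, ‖T v‖ ≤ ((L * R) ^ p + B ^ p) * ‖v‖ := by
  obtain ⟨T, hT, hT'⟩ := h.exists_op hp o g L B R hg.L0 hg.B0 hg.R0 hg.lip hg.bdd hg.supp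
    (by simp)
  exact ⟨T, by simpa [h.map_base] using hT, hT'⟩

/-- The functions in the compact reduction. -/
noncomputable def red (g : M → ℝ) (F : ℕ → Finset M) (n : ℕ) (x : M) : ℝ :=
  g x * ∏ k ∈ Finset.range n, sbump (F k : Set M) ((1 / 2) ^ k) x

lemma red_succ (g : M → ℝ) (F : ℕ → Finset M) (n : ℕ) :
    red g F (n + 1) = fun x => red g F n x * sbump (F n : Set M) ((1 / 2) ^ n) x := by
  funext x
  unfold red
  rw [Finset.prod_range_succ]; ring

lemma red_adm {g : M → ℝ} {L B R : ℝ} (hg : Adm o g L B R) (F : ℕ → Finset M) (n : ℕ) :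
    Adm o (red g F n) (L + B * 2 ^ n) B R := by
  induction n with
  | zero =>
      have e : red g F 0 = g := by funext x; simp [red]
      rw [e]
      have hB := hg.B0
      have hL := hg.L0
      exact ⟨by positivity, hg.B0, hg.R0, fun x y => (hg.lip x y).trans (by
        gcongr
        · simp [hB]), hg.bdd, hg.supp⟩
  | succ n ih =>
      rw [red_succ]
      have := ih.mul (φ := sbump (F n : Set M) ((1 / 2) ^ n)) (K := 2 ^ n) (by positivity)
        (fun x => cut_nonneg _) (fun x => cut_le_one _) (fun x y => by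
          have := sbump_lip (F n : Set M) (r := (1 / 2) ^ n) (by positivity) x y
          simpa using this)
      have e : L + B * 2 ^ n + B * 2 ^ n = L + B * 2 ^ (n + 1) := by ring
      rwa [e] at this

lemma sbump_eq_one {F : Set M} {r : ℝ} {x : M} (hx : x ∈ F) : sbump F r x = 1 := by
  unfold sbump
  rw [infDist_zero_of_mem hx, zero_div]
  exact cut_eq_one zero_le_one

lemma IsLipFree.eq_zero_on_span (h : IsLipFree p o δ) {T : X →L[ℝ] X} {F : Set M}
    (hT : ∀ x ∈ F, T (δ x) = 0) {v : X} (hv : v ∈ Submodule.span ℝ (δ '' F)) : T v = 0 := by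
  have _ := h
  induction hv using Submodule.span_induction with
  | mem x hx => obtain ⟨y, hy, rfl⟩ := hx; exact hT y hy
  | zero => simp
  | add x y _ _ hx hy => simp [hx, hy]
  | smul a x _ hx => simp [hx]

/-- Compact reduction: on a compact set, the operator of multiplication by `g` is approximated by
the operators of multiplication by `red g F n`. -/
lemma IsLipFree.exists_red (hp : 0 < p) (h : IsLipFree p o δ) {g : M → ℝ} {L B R : ℝ}
    (hg : Adm o g L B R) {K : Set X} (hK : IsCompact K) {ε : ℝ} (hε : 0 < ε) :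
    ∃ F : ℕ → Finset M, (∀ n, o ∈ F n) ∧ ∀ (n : ℕ) (T S : X →L[ℝ] X),
      (∀ x, T (δ x) = g x • δ x) → (∀ x, S (δ x) = red g F n x • δ x) →
      ∀ w ∈ K, ‖S w - T w‖ < ε := by
  classical
  have hB := hg.B0
  have hL := hg.L0
  have hR := hg.R0
  set C : ℕ → ℝ := fun n => ((L + B * 2 ^ (n + 1)) * R) ^ p + B ^ p with hC
  have hC0 : ∀ n, 0 ≤ C n := fun n => by rw [hC]; positivity
  have hF : ∀ n, ∃ F : Finset M, o ∈ F ∧ ∀ w ∈ K, ∃ v ∈ Submodule.span ℝ (δ '' (F : Set M)),
      ‖w - v‖ < ε / 2 ^ (n + 1) / (C n + 1) := fun n =>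
    h.exists_finite_approx hK (by have := hC0 n; positivity)
  choose F hFo hF using hF
  refine ⟨F, hFo, ?_⟩
  have hop : ∀ n, ∃ T : X →L[ℝ] X, ∀ x, T (δ x) = red g F n x • δ x := fun n => by
    obtain ⟨T, hT, -⟩ := h.exists_mulOp hp (red_adm hg F n)
    exact ⟨T, hT⟩
  choose T hT using hop
  have hstep : ∀ n, ∀ w ∈ K, ‖T (n + 1) w - T n w‖ ≤ ε / 2 ^ (n + 1) := by
    intro n w hw
    have hadm : Adm o (fun x => red g F n x * (1 - sbump (F n : Set M) ((1 / 2) ^ n) x))
        (L + B * 2 ^ (n + 1)) B R := by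
      have := (red_adm hg F n).mul (φ := fun x => 1 - sbump (F n : Set M) ((1 / 2) ^ n) x)
        (K := 2 ^ n) (by positivity) (fun x => sub_nonneg.2 (cut_le_one _))
        (fun x => by have := cut_nonneg (infDist x (F n : Set M) / (1 / 2) ^ n)
                     unfold sbump; linarith) (fun x y => by
          have := sbump_lip (F n : Set M) (r := (1 / 2) ^ n) (by positivity) x y
          have e : (1 - sbump (F n : Set M) ((1 / 2) ^ n) x) -
            (1 - sbump (F n : Set M) ((1 / 2) ^ n) y) =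
            -(sbump (F n : Set M) ((1 / 2) ^ n) x - sbump (F n : Set M) ((1 / 2) ^ n) y) := by ring
          rw [e, abs_neg]
          simpa using this)
      have e : L + B * 2 ^ n + B * 2 ^ n = L + B * 2 ^ (n + 1) := by ring
      rwa [e] at this
    obtain ⟨D, hD, hD'⟩ := h.exists_mulOp hp hadm
    have hDT : T n - T (n + 1) = D := by
      apply h.ext
      intro x
      simp only [_root_.sub_apply, hT, hD, red_succ]
      rw [← sub_smul]; congr 1; ring
    obtain ⟨v, hv, hwv⟩ := hF n w hw
    have hDv : D v = 0 := by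
      apply h.eq_zero_on_span _ hv
      intro x hx
      rw [hD, sbump_eq_one hx]; simp
    have hDw : D w = D (w - v) := by rw [map_sub, hDv, sub_zero]
    have e : T (n + 1) w - T n w = - D w := by rw [← hDT]; simp
    rw [e, norm_neg, hDw]
    calc ‖D (w - v)‖ ≤ C n * ‖w - v‖ := hD' _
      _ ≤ (C n + 1) * (ε / 2 ^ (n + 1) / (C n + 1)) := by
          have := hC0 n
          gcongr
          linarith
      _ = ε / 2 ^ (n + 1) := by have := hC0 n; field_simp
  have hsum : ∀ n, ∀ w ∈ K, ‖T n w - T 0 w‖ ≤ ε * (1 - 1 / 2 ^ n) := by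
    intro n w hw
    induction n with
    | zero => simp
    | succ n ih =>
        calc ‖T (n + 1) w - T 0 w‖ = ‖(T (n + 1) w - T n w) + (T n w - T 0 w)‖ := by
              congr 1; abel
          _ ≤ ‖T (n + 1) w - T n w‖ + ‖T n w - T 0 w‖ := norm_add_le _ _
          _ ≤ ε / 2 ^ (n + 1) + ε * (1 - 1 / 2 ^ n) := add_le_add (hstep n w hw) ih
          _ = ε * (1 - 1 / 2 ^ (n + 1)) := by rw [pow_succ]; field_simp; ring
  intro n T' S hT' hS w hw
  have e1 : S = T n := h.ext (fun x => by rw [hS, hT])
  have e2 : T' = T 0 := h.ext (fun x => by rw [hT', hT]; simp [red])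
  rw [e1, e2]
  refine (hsum n w hw).trans_lt ?_
  have : (0:ℝ) < 1 / 2 ^ n := by positivity
  nlinarith

/-- An open set is good if all multiplication operators with symbol supported in it are
approximable. -/
def Good (o : M) (δ : M → X) (U : Set M) : Prop :=
  ∀ (g : M → ℝ) (L B R : ℝ), Adm o g L B R → (∀ x, g x ≠ 0 → x ∈ U) →
    ∀ T : X →L[ℝ] X, (∀ x, T (δ x) = g x • δ x) → Approx T

lemma bump_eq_one {z x : M} {r : ℝ} (hr : 0 < r) (hx : dist x z ≤ r) : bump z r x = 1 :=
  cut_eq_one ((div_le_one hr).2 hx)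

lemma bump_eq_zero {z x : M} {r : ℝ} (hr : 0 < r) (hx : 2 * r ≤ dist x z) : bump z r x = 0 :=
  cut_eq_zero ((le_div_iff₀ hr).2 hx)

lemma IsLipFree.approx_of_cover (hp : 0 < p) (h : IsLipFree p o δ) (Z : Finset M) (ρ : M → ℝ)
    (hρ : ∀ z ∈ Z, 0 < ρ z) (hZ : ∀ z ∈ Z, Good o δ (ball z (2 * ρ z))) :
    ∀ (g : M → ℝ) (L B R : ℝ), Adm o g L B R →
      (∀ x, g x ≠ 0 → ∃ z ∈ Z, x ∈ ball z (ρ z)) →
      ∀ T : X →L[ℝ] X, (∀ x, T (δ x) = g x • δ x) → Approx T := by
  classical
  induction Z using Finset.induction_on with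
  | empty =>
      intro g L B R _ hs T hT
      have : T = 0 := h.ext (fun x => by
        have : g x = 0 := by
          by_contra hne
          obtain ⟨z, hz, -⟩ := hs x hne
          simp at hz
        rw [hT, this]; simp)
      rw [this]
      apply Approx.of_finite
      have e : ((0 : X →L[ℝ] X) : X →ₗ[ℝ] X) = 0 := rfl
      rw [e, LinearMap.range_zero]
      infer_instance
  | insert z Z hz ih =>
      intro g L B R hg hs T hT
      have hρz : 0 < ρ z := hρ z (by simp)
      have h1 : Adm o (fun x => g x * bump z (ρ z) x) (L + B * (1 / ρ z)) B R :=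
        hg.mul (by positivity) (fun x => cut_nonneg _) (fun x => cut_le_one _)
          (fun x y => bump_lip z hρz x y)
      have h2 : Adm o (fun x => g x * (1 - bump z (ρ z) x)) (L + B * (1 / ρ z)) B R :=
        hg.mul (φ := fun x => 1 - bump z (ρ z) x) (by positivity)
          (fun x => sub_nonneg.2 (cut_le_one _))
          (fun x => by have := cut_nonneg (dist x z / ρ z); unfold bump; linarith)
          (fun x y => by
            have := bump_lip z hρz x y
            have e : (1 - bump z (ρ z) x) - (1 - bump z (ρ z) y) =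
              -(bump z (ρ z) x - bump z (ρ z) y) := by ring
            rw [e, abs_neg]; exact this)
      obtain ⟨T1, hT1, -⟩ := h.exists_mulOp hp h1
      obtain ⟨T2, hT2, -⟩ := h.exists_mulOp hp h2
      have e : T = T1 + T2 := h.ext (fun x => by
        simp only [_root_.add_apply, hT, hT1, hT2]
        rw [← add_smul]; congr 1; ring)
      rw [e]
      refine Approx.add ?_ ?_
      · refine hZ z (by simp) _ _ _ _ h1 ?_ T1 hT1
        intro x hx
        by_contra hne
        rw [mem_ball, not_lt] at hne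
        exact hx (by simp [bump_eq_zero hρz hne])
      · refine ih (fun y hy => hρ y (by simp [hy])) (fun y hy => hZ y (by simp [hy]))
          _ _ _ _ h2 ?_ T2 hT2
        intro x hx
        have hgx : g x ≠ 0 := fun h0 => hx (by simp [h0])
        obtain ⟨y, hy, hxy⟩ := hs x hgx
        rcases Finset.mem_insert.1 hy with rfl | hy
        · exact absurd (by simp [bump_eq_one hρz (mem_ball.1 hxy).le]) hx
        · exact ⟨y, hy, hxy⟩

/-- The topological part of the compact reduction. -/
lemma exists_stage [CompleteSpace M] (F : ℕ → Finset M) (C : Set M) (hC : IsClosed C) :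
    IsCompact {x ∈ C | ∀ k, ∃ y ∈ F k, dist x y ≤ 2 * (1 / 2) ^ k} ∧
    ∀ O : Set M, IsOpen O → {x ∈ C | ∀ k, ∃ y ∈ F k, dist x y ≤ 2 * (1 / 2) ^ k} ⊆ O →
      ∃ n, ∀ x ∈ C, (∀ k < n, ∃ y ∈ F k, dist x y ≤ 2 * (1 / 2) ^ k) → x ∈ O := by
  have hlim : Tendsto (fun k : ℕ => 2 * (1 / 2 : ℝ) ^ k) atTop (𝓝 0) := by
    have := (tendsto_pow_atTop_nhds_zero_of_lt_one (r := (1 / 2 : ℝ)) (by norm_num)
      (by norm_num)).const_mul 2
    simpa using this
  have hclosed : ∀ k, IsClosed {x : M | ∃ y ∈ F k, dist x y ≤ 2 * (1 / 2) ^ k} := by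
    intro k
    have : {x : M | ∃ y ∈ F k, dist x y ≤ 2 * (1 / 2) ^ k} =
        ⋃ y ∈ (F k : Set M), closedBall y (2 * (1 / 2) ^ k) := by
      ext x; simp
    rw [this]
    exact (F k).finite_toSet.isClosed_biUnion (fun y _ => isClosed_closedBall)
  refine ⟨?_, ?_⟩
  · apply TotallyBounded.isCompact_of_isClosed
    · rw [Metric.totallyBounded_iff]
      intro ε hε
      obtain ⟨k, hk⟩ := (hlim.eventually (gt_mem_nhds hε)).exists
      refine ⟨F k, (F k).finite_toSet, ?_⟩
      rintro x ⟨-, hx⟩
      obtain ⟨y, hy, hxy⟩ := hx k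
      exact mem_iUnion₂.2 ⟨y, hy, mem_ball.2 (hxy.trans_lt hk)⟩
    · have : {x ∈ C | ∀ k, ∃ y ∈ F k, dist x y ≤ 2 * (1 / 2) ^ k} =
          C ∩ ⋂ k, {x : M | ∃ y ∈ F k, dist x y ≤ 2 * (1 / 2) ^ k} := by
        ext x; simp
      rw [this]
      exact hC.inter (isClosed_iInter hclosed)
  · intro O hO hEO
    by_contra hcon
    push Not at hcon
    choose x hxC hx hxO using hcon
    have htb : TotallyBounded (range x) := by
      rw [Metric.totallyBounded_iff]
      intro ε hε
      obtain ⟨k, hk⟩ := (hlim.eventually (gt_mem_nhds hε)).exists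
      refine ⟨(F k : Set M) ∪ x '' (Iic k), (F k).finite_toSet.union
        ((finite_Iic k).image x), ?_⟩
      rintro _ ⟨n, rfl⟩
      by_cases hn : n ≤ k
      · exact mem_iUnion₂.2 ⟨x n, Or.inr ⟨n, hn, rfl⟩, mem_ball_self hε⟩
      · push Not at hn
        obtain ⟨y, hy, hxy⟩ := hx n k hn
        exact mem_iUnion₂.2 ⟨y, Or.inl hy, mem_ball.2 (hxy.trans_lt hk)⟩
    have hcomp : IsCompact (closure (range x)) :=
      htb.closure.isCompact_of_isClosed isClosed_closure
    obtain ⟨z, -, φ, hφ, hz⟩ := hcomp.tendsto_subseq (fun n => subset_closure ⟨n, rfl⟩)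
    have hzC : z ∈ C := hC.mem_of_tendsto hz (Eventually.of_forall fun n => hxC _)
    have hzE : ∀ k, ∃ y ∈ F k, dist z y ≤ 2 * (1 / 2) ^ k := by
      intro k
      refine (hclosed k).mem_of_tendsto hz ?_
      filter_upwards [eventually_gt_atTop k] with n hn
      exact hx (φ n) k (hn.trans_le (hφ.id_le n))
    have hzO : z ∈ Oᶜ := hO.isClosed_compl.mem_of_tendsto hz
      (Eventually.of_forall fun n => hxO _)
    exact hzO (hEO ⟨hzC, hzE⟩)

lemma red_support {g : M → ℝ} {F : ℕ → Finset M} (hF : ∀ n, o ∈ F n) {n : ℕ} {x : M}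
    (hx : red g F n x ≠ 0) :
    g x ≠ 0 ∧ ∀ k < n, ∃ y ∈ F k, dist x y ≤ 2 * (1 / 2) ^ k := by
  unfold red at hx
  refine ⟨left_ne_zero_of_mul hx, fun k hk => ?_⟩
  have h1 := Finset.prod_ne_zero_iff.1 (right_ne_zero_of_mul hx) k (by simpa using hk)
  have h2 : infDist x (F k : Set M) < 2 * (1 / 2) ^ k := by
    by_contra hcon
    push Not at hcon
    exact h1 (cut_eq_zero ((le_div_iff₀ (by positivity)).2 hcon))
  obtain ⟨y, hy, hxy⟩ := (infDist_lt_iff ⟨o, hF k⟩).1 h2
  exact ⟨y, hy, hxy.le⟩

/-- The union of all good open sets is good, first for symbols with closed support in it. -/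
lemma IsLipFree.good_union_closed [CompleteSpace M] (hp : 0 < p) (h : IsLipFree p o δ)
    (U : Set M) (hU : ∀ x ∈ U, ∃ r > 0, Good o δ (ball x r)) (g : M → ℝ) (L B R : ℝ)
    (hg : Adm o g L B R) (C : Set M) (hC : IsClosed C) (hCU : C ⊆ U) (hgC : ∀ x, g x ≠ 0 → x ∈ C)
    (T : X →L[ℝ] X) (hT : ∀ x, T (δ x) = g x • δ x) : Approx T := by
  classical
  apply Approx.of_close
  intro K hK ε hε
  obtain ⟨F, hFo, hF⟩ := h.exists_red hp hg hK hε
  obtain ⟨hE, hst⟩ := exists_stage F C hC
  set E := {x ∈ C | ∀ k, ∃ y ∈ F k, dist x y ≤ 2 * (1 / 2) ^ k} with hEdef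
  choose! r hr hrg using hU
  obtain ⟨t, htE, ht⟩ := hE.elim_nhds_subcover (fun x => ball x (r x / 2))
    (fun x hx => ball_mem_nhds x (by have := hr x (hCU hx.1); linarith))
  obtain ⟨n, hn⟩ := hst (⋃ x ∈ t, ball x (r x / 2))
    (isOpen_biUnion fun x _ => isOpen_ball) ht
  obtain ⟨S, hS, -⟩ := h.exists_mulOp hp (red_adm hg F n)
  refine ⟨S, ?_, hF n T S hT hS⟩
  refine h.approx_of_cover hp t (fun x => r x / 2) ?_ ?_ (red g F n) _ _ _ (red_adm hg F n) ?_ S hS
  · intro z hz
    have := hr z (hCU (htE z hz).1)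
    simpa using this
  · intro z hz
    have e : 2 * (r z / 2) = r z := by ring
    simp only [e]
    exact hrg z (hCU (htE z hz).1)
  · intro x hx
    obtain ⟨h1, h2⟩ := red_support hFo hx
    have := hn x (hgC x h1) h2
    simpa using this

/-- Truncation at level `s`. -/
noncomputable def trunc (s t : ℝ) : ℝ := t - max (-s) (min s t)

lemma trunc_eq_zero {s t : ℝ} (h : |t| ≤ s) : trunc s t = 0 := by
  unfold trunc
  rw [min_eq_right (abs_le.1 h).2, max_eq_right (abs_le.1 h).1, sub_self]

lemma trunc_lip (s a b : ℝ) : |trunc s a - trunc s b| ≤ |a - b| := by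
  unfold trunc
  rcases le_total a b with hab | hab
  · have h1 : max (-s) (min s a) ≤ max (-s) (min s b) := max_le_max le_rfl (min_le_min le_rfl hab)
    have h2 : max (-s) (min s b) - max (-s) (min s a) ≤ b - a := by
      rcases le_total s b with h | h <;> rcases le_total s a with h' | h' <;>
        simp only [min_eq_left, min_eq_right, h, h'] <;>
        rcases le_total (-s) b with h3 | h3 <;> rcases le_total (-s) a with h4 | h4 <;>
        rcases le_total (-s) s with h5 | h5 <;>
        simp only [max_eq_left, max_eq_right, h3, h4, h5] <;> linarith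
    rw [abs_sub_comm a b, abs_of_nonneg (sub_nonneg.2 hab), abs_le]
    constructor <;> linarith
  · have h1 : max (-s) (min s b) ≤ max (-s) (min s a) := max_le_max le_rfl (min_le_min le_rfl hab)
    have h2 : max (-s) (min s a) - max (-s) (min s b) ≤ a - b := by
      rcases le_total s b with h | h <;> rcases le_total s a with h' | h' <;>
        simp only [min_eq_left, min_eq_right, h, h'] <;>
        rcases le_total (-s) b with h3 | h3 <;> rcases le_total (-s) a with h4 | h4 <;>
        rcases le_total (-s) s with h5 | h5 <;>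
        simp only [max_eq_left, max_eq_right, h3, h4, h5] <;> linarith
    rw [abs_of_nonneg (sub_nonneg.2 hab), abs_le]
    constructor <;> linarith

lemma trunc_abs_le {s : ℝ} (hs : 0 ≤ s) (t : ℝ) : |trunc s t| ≤ |t| := by
  have := trunc_lip s t 0
  have e0 : trunc s 0 = 0 := trunc_eq_zero (by simpa using hs)
  rwa [e0, sub_zero, sub_zero] at this

lemma trunc_close {s : ℝ} (hs : 0 ≤ s) (t : ℝ) : |trunc s t - t| ≤ s := by
  unfold trunc
  have e : t - max (-s) (min s t) - t = - max (-s) (min s t) := by ring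
  rw [e, abs_neg, abs_le]
  exact ⟨le_max_left _ _, max_le (by linarith) (min_le_left _ _)⟩

lemma IsLipFree.good_union [CompleteSpace M] (hp : 0 < p) (h : IsLipFree p o δ)
    (U : Set M) (hU : ∀ x ∈ U, ∃ r > 0, Good o δ (ball x r)) : Good o δ U := by
  intro g L B R hg hgU T hT
  apply Approx.of_close
  intro K hK ε hε
  have hB := hg.B0
  have hL := hg.L0
  have hR := hg.R0
  set s : ℕ → ℝ := fun n => 1 / ((n : ℝ) + 1) with hs
  have hs0 : ∀ n, 0 < s n := fun n => by rw [hs]; positivity
  have hadm : ∀ n, Adm o (fun x => trunc (s n) (g x)) L B R := fun n =>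
    ⟨hL, hB, hR, fun x y => (trunc_lip _ _ _).trans (hg.lip x y),
      fun x => (trunc_abs_le (hs0 n).le _).trans (hg.bdd x),
      fun x hx => hg.supp x (fun h0 => hx (by
        rw [h0]; exact trunc_eq_zero (by simpa using (hs0 n).le)))⟩
  have hop : ∀ n, ∃ T : X →L[ℝ] X, (∀ x, T (δ x) = trunc (s n) (g x) • δ x) ∧
      ∀ v, ‖T v‖ ≤ ((L * R) ^ p + B ^ p) * ‖v‖ := fun n => h.exists_mulOp hp (hadm n)
  choose S hS hS' using hop
  obtain ⟨T0, hT0, hT0'⟩ := h.exists_mulOp hp hg
  have hTT0 : T = T0 := h.ext (fun x => by rw [hT, hT0])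
  have hconv : ∀ x, Tendsto (fun n => S n (δ x)) atTop (𝓝 (T (δ x))) := by
    intro x
    have := continuousSMul_of_pnormed hp h.pnormed
    simp only [hS, hT]
    refine Tendsto.smul_const ?_ _
    rw [tendsto_iff_norm_sub_tendsto_zero]
    refine squeeze_zero (fun n => norm_nonneg _) (fun n => trunc_close (hs0 n).le (g x)) ?_
    exact tendsto_one_div_add_atTop_nhds_zero_nat
  obtain ⟨n, hn⟩ := h.unif_of_pointwise ((L * R) ^ p + B ^ p) S hS' T
    (by rw [hTT0]; exact hT0') hconv hp hK hε
  refine ⟨S n, ?_, hn⟩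
  refine h.good_union_closed hp U hU (fun x => trunc (s n) (g x)) L B R (hadm n)
    {x | s n ≤ |g x|} ?_ ?_ ?_ (S n) (hS n)
  · have hgc : Continuous g := by
      have : LipschitzWith (Real.toNNReal L) g := by
        apply LipschitzWith.of_dist_le_mul
        intro x y
        rw [Real.dist_eq, Real.coe_toNNReal _ hL]
        exact hg.lip x y
      exact this.continuous
    exact isClosed_le continuous_const (continuous_abs.comp hgc)
  · intro x hx
    apply hgU x
    intro h0
    have hx' : s n ≤ |g x| := hx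
    rw [h0, abs_zero] at hx'
    exact absurd hx' (not_le.2 (hs0 n))
  · intro x hx
    change s n ≤ |g x|
    by_contra hcon
    push Not at hcon
    exact hx (trunc_eq_zero hcon.le)

/-- The isolated point step. -/
lemma IsLipFree.good_isolated [CompleteSpace M] (hp : 0 < p) (h : IsLipFree p o δ)
    (U : Set M) (hU : ∀ x ∈ U, ∃ r > 0, Good o δ (ball x r)) (a : M) (r : ℝ)
    (ha : ∀ x ∈ ball a r, x ≠ a → x ∈ U) (hao : a = o ∨ r ≤ dist o a) :
    Good o δ (ball a r) := by
  intro g L B R hg hgU T hT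
  apply Approx.of_close
  intro K hK ε hε
  have hB := hg.B0
  have hL := hg.L0
  have hR := hg.R0
  set s : ℕ → ℝ := fun n => 1 / ((n : ℝ) + 1) with hs
  have hs0 : ∀ n, 0 < s n := fun n => by rw [hs]; positivity
  have hs1 : ∀ n, s n ≤ 1 := fun n => by
    rw [hs]; exact (div_le_one (by positivity)).2 (by linarith [Nat.cast_nonneg (α := ℝ) n])
  have hgo : a = o ∨ g o = 0 := by
    rcases hao with h1 | h1
    · exact Or.inl h1
    · right
      by_contra hne
      have := hgU o hne
      rw [mem_ball] at this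
      linarith
  -- the three pieces
  have h1 : ∀ n, Adm o (fun x => g x * bump a (s n) x) (L + B * (1 / s n)) B R := fun n =>
    hg.mul (by have := hs0 n; positivity) (fun x => cut_nonneg _) (fun x => cut_le_one _)
      (fun x y => bump_lip a (hs0 n) x y)
  have h2 : ∀ n, Adm o (fun x => g x * (1 - bump a (s n) x)) (L + B * (1 / s n)) B R := fun n =>
    hg.mul (φ := fun x => 1 - bump a (s n) x) (by have := hs0 n; positivity)
      (fun x => sub_nonneg.2 (cut_le_one _))
      (fun x => by have := cut_nonneg (dist x a / s n); unfold bump; linarith)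
      (fun x y => by
        have := bump_lip a (hs0 n) x y
        have e : (1 - bump a (s n) x) - (1 - bump a (s n) y) =
          -(bump a (s n) x - bump a (s n) y) := by ring
        rw [e, abs_neg]; exact this)
  have hop2 : ∀ n, ∃ T : X →L[ℝ] X, ∀ x, T (δ x) = (g x * (1 - bump a (s n) x)) • δ x :=
    fun n => by
      obtain ⟨T, hT, -⟩ := h.exists_mulOp hp (h2 n)
      exact ⟨T, hT⟩
  have hopV : ∀ n, ∃ T : X →L[ℝ] X, (∀ x, T (δ x) = (g x * bump a (s n) x) • δ a) ∧
      FiniteDimensional ℝ (LinearMap.range (T : X →ₗ[ℝ] X)) := fun n => by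
    rcases hgo with hgo | hgo
    · refine ⟨0, fun x => ?_, ?_⟩
      · rw [hgo, h.map_base, smul_zero]; rfl
      · have e : ((0 : X →L[ℝ] X) : X →ₗ[ℝ] X) = 0 := rfl
        rw [e, LinearMap.range_zero]
        infer_instance
    · exact h.exists_rank_one hp (fun x => g x * bump a (s n) x) (δ a) _ (h1 n).L0 (h1 n).lip
        (by simp [hgo])
  set Cst : ℝ := (2 * L + 2 * B) ^ p + B ^ p with hCst
  have hopD : ∀ n, ∃ T : X →L[ℝ] X, (∀ x, T (δ x) = (g x * bump a (s n) x) • (δ x - δ a)) ∧
      ∀ v, ‖T v‖ ≤ Cst * ‖v‖ := fun n => by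
    have hsn := hs0 n
    obtain ⟨T, hT, hT'⟩ := h.exists_op hp a (fun x => g x * bump a (s n) x)
      (L + B * (1 / s n)) B (2 * s n) (h1 n).L0 hB (by positivity) (h1 n).lip (h1 n).bdd (by
        intro x hx
        by_contra hcon
        push Not at hcon
        exact hx (by simp [bump_eq_zero hsn hcon.le])) (by
        rcases hgo with hgo | hgo
        · rw [hgo]; simp
        · simp [hgo])
    refine ⟨T, hT, fun v => (hT' v).trans ?_⟩
    have e : (L + B * (1 / s n)) * (2 * s n) = 2 * L * s n + 2 * B := by field_simp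
    have e2 : 2 * L * s n ≤ 2 * L := by
      have := hs1 n
      nlinarith
    apply mul_le_mul_of_nonneg_right _ (norm_nonneg v)
    rw [hCst, e]
    have : (2 * L * s n + 2 * B) ^ p ≤ (2 * L + 2 * B) ^ p :=
      Real.rpow_le_rpow (by positivity) (by linarith) hp.le
    linarith
  choose T2 hT2 using hop2
  choose V hV hVf using hopV
  choose D hD hD' using hopD
  have hconv : ∀ x, Tendsto (fun n => D n (δ x)) atTop (𝓝 ((0 : X →L[ℝ] X) (δ x))) := by
    intro x
    simp only [_root_.zero_apply]
    by_cases hxa : x = a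
    · subst hxa
      have : (fun n => D n (δ x)) = fun _ => 0 := by
        funext n; rw [hD]; simp
      rw [this]
      exact tendsto_const_nhds
    · have hd : 0 < dist x a := dist_pos.2 hxa
      have hlim : Tendsto s atTop (𝓝 0) := tendsto_one_div_add_atTop_nhds_zero_nat
      have hev : ∀ᶠ n in atTop, D n (δ x) = 0 := by
        filter_upwards [hlim.eventually (gt_mem_nhds (half_pos hd))] with n hn
        rw [hD, bump_eq_zero (hs0 n) (by linarith)]; simp
      exact Tendsto.congr' (by filter_upwards [hev] with n hn using hn.symm) tendsto_const_nhds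
  obtain ⟨n, hn⟩ := h.unif_of_pointwise Cst D hD' 0 (fun v => by
    simp only [_root_.zero_apply, norm_zero]
    positivity) hconv hp hK hε
  refine ⟨T2 n + V n, ?_, ?_⟩
  · refine Approx.add ?_ (Approx.of_finite (hVf n))
    refine h.good_union hp U hU _ _ _ _ (h2 n) ?_ (T2 n) (hT2 n)
    intro x hx
    have hgx : g x ≠ 0 := fun h0 => hx (by simp [h0])
    refine ha x (hgU x hgx) ?_
    intro hxa
    apply hx
    have e0 : bump a (s n) x = 1 :=
      bump_eq_one (hs0 n) (by rw [hxa, dist_self]; exact (hs0 n).le)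
    simp [e0]
  · intro w hw
    have e : T = T2 n + V n + D n := h.ext (fun x => by
      simp only [_root_.add_apply, hT, hT2, hV, hD]
      rw [smul_sub, mul_sub, mul_one, sub_smul]
      abel)
    rw [e, norm_sub_rev]
    have := hn w hw
    simpa using this

lemma IsLipFree.good_univ [CompleteSpace M] (hp : 0 < p) (h : IsLipFree p o δ)
    (hM : IsScattered M) : Good o δ univ := by
  set U : Set M := {x | ∃ r > 0, Good o δ (ball x r)} with hU
  by_cases hne : (Uᶜ).Nonempty
  · exfalso
    obtain ⟨a, haU, W, hW, hWa⟩ := hM Uᶜ hne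
    have haW : a ∈ W := by
      have : a ∈ W ∩ Uᶜ := by rw [hWa]; rfl
      exact this.1
    obtain ⟨r, hr, hrW⟩ := Metric.isOpen_iff.1 hW a haW
    have hr' : ∀ x ∈ ball a r, x ≠ a → x ∈ U := by
      intro x hx hxa
      by_contra hcon
      have : x ∈ W ∩ Uᶜ := ⟨hrW hx, hcon⟩
      rw [hWa] at this
      exact hxa this
    apply haU
    by_cases hao : a = o
    · exact ⟨r, hr, h.good_isolated hp U (fun x hx => hx) a r hr' (Or.inl hao)⟩
    · have hd : 0 < dist o a := dist_pos.2 (Ne.symm hao)
      refine ⟨min r (dist o a), lt_min hr hd, h.good_isolated hp U (fun x hx => hx) a _ ?_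
        (Or.inr (min_le_right _ _))⟩
      intro x hx hxa
      exact hr' x (ball_subset_ball (min_le_left _ _) hx) hxa
  · rw [not_nonempty_iff_eq_empty, compl_empty_iff] at hne
    refine h.good_union hp univ (fun x _ => ?_)
    have : x ∈ U := by rw [hne]; trivial
    exact this

theorem IsLipFree.hasAP_of_complete [CompleteSpace M] (hp : 0 < p) (h : IsLipFree p o δ)
    (hM : IsScattered M) : HasAP X := by
  have hgood := h.good_univ hp hM
  have key : Approx (ContinuousLinearMap.id ℝ X) := by
    apply Approx.of_close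
    intro K hK ε hε
    have hadm : ∀ n : ℕ, Adm o (fun x => bump o ((n : ℝ) + 1) x) (1 / ((n : ℝ) + 1)) 1
        (2 * ((n : ℝ) + 1)) := fun n =>
      ⟨by positivity, zero_le_one, by positivity, fun x y => bump_lip o (by positivity) x y,
        fun x => by
          rw [abs_of_nonneg (show 0 ≤ bump o ((n : ℝ) + 1) x from cut_nonneg _)]
          exact cut_le_one _,
        fun x hx => by
          by_contra hcon
          push Not at hcon
          exact hx (bump_eq_zero (by positivity) hcon.le)⟩
    have hop : ∀ n : ℕ, ∃ T : X →L[ℝ] X, (∀ x, T (δ x) = bump o ((n : ℝ) + 1) x • δ x) ∧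
        ∀ v, ‖T v‖ ≤ (2 ^ p + 1) * ‖v‖ := fun n => by
      obtain ⟨T, hT, hT'⟩ := h.exists_mulOp hp (hadm n)
      refine ⟨T, hT, fun v => (hT' v).trans (le_of_eq ?_)⟩
      have e : (1 / ((n : ℝ) + 1)) * (2 * ((n : ℝ) + 1)) = 2 := by field_simp
      rw [e, Real.one_rpow]
    choose S hS hS' using hop
    have hconv : ∀ x, Tendsto (fun n => S n (δ x)) atTop
        (𝓝 ((ContinuousLinearMap.id ℝ X) (δ x))) := by
      intro x
      have hev : ∀ᶠ n : ℕ in atTop, S n (δ x) = δ x := by
        filter_upwards [eventually_ge_atTop ⌈dist x o⌉₊] with n hn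
        rw [hS, bump_eq_one (by positivity), one_smul]
        have h1 : dist x o ≤ n := (Nat.le_ceil _).trans (by exact_mod_cast hn)
        linarith
      exact Tendsto.congr' (by filter_upwards [hev] with n hn using hn.symm) tendsto_const_nhds
    obtain ⟨n, hn⟩ := h.unif_of_pointwise (2 ^ p + 1) S hS' (ContinuousLinearMap.id ℝ X)
      (fun v => by
        have : (0:ℝ) ≤ 2 ^ p * ‖v‖ := by positivity
        simp only [ContinuousLinearMap.id_apply]
        linarith) hconv hp hK hε
    exact ⟨S n, hgood _ _ _ _ (hadm n) (fun x _ => trivial) (S n) (hS n), hn⟩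
  intro K hK ε hε
  exact key K hK ε hε

end core

section completion

variable {p : ℝ} {M : Type*} [MetricSpace M] {X : Type u} [NormedAddCommGroup X] [Module ℝ X]
  {o : M} {δ : M → X}

lemma continuous_of_holder (hp : 0 < p) {N : Type*} [MetricSpace N] {Y : Type*}
    [NormedAddCommGroup Y] {f : N → Y} {L : ℝ}
    (hf : ∀ x y, ‖f x - f y‖ ≤ (L * dist x y) ^ p) : Continuous f := by
  rw [continuous_iff_continuousAt]
  intro x
  rw [ContinuousAt, tendsto_iff_norm_sub_tendsto_zero]
  refine squeeze_zero (fun y => norm_nonneg _) (fun y => hf y x) ?_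
  have hc : Continuous (fun y => (L * dist y x) ^ p) :=
    (continuous_const.mul (continuous_id.dist continuous_const)).rpow_const
      (fun _ => Or.inr hp.le)
  have := hc.tendsto x
  simpa [Real.zero_rpow hp.ne'] using this

lemma IsLipFree.uniformContinuous (hp : 0 < p) (h : IsLipFree p o δ) : UniformContinuous δ := by
  rw [Metric.uniformContinuous_iff]
  intro ε hε
  refine ⟨ε ^ (1 / p), by positivity, fun {x y} hxy => ?_⟩
  rw [dist_eq_norm, h.norm_sub]
  calc dist x y ^ p < (ε ^ (1 / p)) ^ p := Real.rpow_lt_rpow dist_nonneg hxy hp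
    _ = ε := by rw [← Real.rpow_mul hε.le, one_div, inv_mul_cancel₀ hp.ne', Real.rpow_one]

/-- A free space over `M` is a free space over the completion of `M`. -/
lemma IsLipFree.toCompletion (hp : 0 < p) (h : IsLipFree p o δ) :
    IsLipFree p (o : UniformSpace.Completion M) (UniformSpace.Completion.extension δ) := by
  have := h.complete
  have hu := h.uniformContinuous hp
  have hδc : Continuous (UniformSpace.Completion.extension δ) :=
    UniformSpace.Completion.continuous_extension
  have hcoe : ∀ x : M, UniformSpace.Completion.extension δ (x : UniformSpace.Completion M) = δ x :=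
    fun x => UniformSpace.Completion.extension_coe hu x
  refine ⟨h.complete, h.pnormed, ?_, ?_, ?_, ?_⟩
  · rw [hcoe, h.map_base]
  · intro x y
    refine UniformSpace.Completion.induction_on₂ x y ?_ ?_
    · refine isClosed_eq ?_ ?_
      · exact ((hδc.comp continuous_fst).sub (hδc.comp continuous_snd)).norm
      · exact (continuous_fst.dist continuous_snd).rpow_const (fun _ => Or.inr hp.le)
    · intro a b
      rw [hcoe, hcoe, h.norm_sub, UniformSpace.Completion.dist_eq]
  · refine h.dense_span.mono ?_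
    have : Submodule.span ℝ (range δ) ≤
        Submodule.span ℝ (range (UniformSpace.Completion.extension δ)) := by
      apply Submodule.span_mono
      rintro _ ⟨x, rfl⟩
      exact ⟨x, hcoe x⟩
    exact this
  · intro Y _ _ _ _ f L hL hfo hf
    have hfc : Continuous f := continuous_of_holder hp hf
    obtain ⟨T, ⟨hT1, hT2⟩, hTu⟩ := h.exists_lift Y (fun x : M => f x) L hL hfo
      (fun x y => by
        have := hf x y
        rwa [UniformSpace.Completion.dist_eq] at this)
    refine ⟨T, ⟨?_, hT2⟩, ?_⟩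
    · have e : (fun x => T (UniformSpace.Completion.extension δ x)) = f := by
        refine UniformSpace.Completion.ext (T.continuous.comp hδc) hfc ?_
        intro a
        rw [hcoe, hT1]
      exact fun x => congrFun e x
    · rintro T' ⟨hT'1, hT'2⟩
      refine hTu T' ⟨fun x => ?_, hT'2⟩
      have := hT'1 x
      rwa [hcoe] at this

end completion

section existence

variable {p : ℝ} {M : Type u} [MetricSpace M] {o : M}

set_option linter.unusedSectionVars false

/-- The cost of a combination of elementary molecules. -/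
noncomputable def cost (p : ℝ) (c : (M × M) →₀ ℝ) : ℝ :=
  c.sum fun q a => |a| ^ p * dist q.1 q.2 ^ p

/-- The combination of molecules `e_x - e_y` with coefficients `c (x, y)`. -/
noncomputable def mol : ((M × M) →₀ ℝ) →ₗ[ℝ] (M →₀ ℝ) :=
  Finsupp.linearCombination ℝ (fun q : M × M => Finsupp.single q.1 1 - Finsupp.single q.2 1)

/-- The costs of the representations of `v` (modulo `e_o`) by molecules. -/
def reps (p : ℝ) (o : M) (v : M →₀ ℝ) : Set ℝ :=
  {t | ∃ (c : (M × M) →₀ ℝ) (b : ℝ), v = mol c + Finsupp.single o b ∧ t = cost p c}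

/-- The (`p`-homogeneous) free space seminorm on finitely supported functions. -/
noncomputable def fnorm (p : ℝ) (o : M) (v : M →₀ ℝ) : ℝ := sInf (reps p o v)

lemma cost_eq (hp : 0 < p) (c : (M × M) →₀ ℝ) {s : Finset (M × M)} (hs : c.support ⊆ s) :
    cost p c = ∑ q ∈ s, |c q| ^ p * dist q.1 q.2 ^ p :=
  Finsupp.sum_of_support_subset c hs _ (fun q _ => by simp [Real.zero_rpow hp.ne'])

lemma cost_nonneg (c : (M × M) →₀ ℝ) : 0 ≤ cost p c :=
  Finset.sum_nonneg fun q _ => by positivity

lemma cost_add (hp : 0 < p) (hp1 : p ≤ 1) (c d : (M × M) →₀ ℝ) :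
    cost p (c + d) ≤ cost p c + cost p d := by
  classical
  rw [cost_eq hp (c + d) Finsupp.support_add, cost_eq hp c (s := c.support ∪ d.support) (by simp),
    cost_eq hp d (s := c.support ∪ d.support) (by simp), ← Finset.sum_add_distrib]
  refine Finset.sum_le_sum fun q _ => ?_
  rw [← add_mul]
  refine mul_le_mul_of_nonneg_right ?_ (by positivity)
  calc |(c + d) q| ^ p ≤ (|c q| + |d q|) ^ p :=
        Real.rpow_le_rpow (abs_nonneg _) (abs_add_le _ _) hp.le
    _ ≤ |c q| ^ p + |d q| ^ p :=
        Real.rpow_add_le_add_rpow (abs_nonneg _) (abs_nonneg _) hp.le hp1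

lemma cost_smul (hp : 0 < p) (a : ℝ) (c : (M × M) →₀ ℝ) :
    cost p (a • c) = |a| ^ p * cost p c := by
  rw [cost_eq hp (a • c) (s := c.support) Finsupp.support_smul,
    cost_eq hp c (s := c.support) subset_rfl, Finset.mul_sum]
  refine Finset.sum_congr rfl fun q _ => ?_
  rw [Finsupp.smul_apply, smul_eq_mul, abs_mul, Real.mul_rpow (abs_nonneg _) (abs_nonneg _)]
  ring

lemma mol_single (x y : M) (a : ℝ) :
    mol (Finsupp.single (x, y) a) = Finsupp.single x a - Finsupp.single y a := by
  unfold mol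
  rw [Finsupp.linearCombination_single, smul_sub]
  simp

lemma linComb_mol {Y : Type*} [AddCommGroup Y] [Module ℝ Y] (f : M → Y) (c : (M × M) →₀ ℝ) :
    Finsupp.linearCombination ℝ f (mol c) = ∑ q ∈ c.support, c q • (f q.1 - f q.2) := by
  have h : (mol c : M →₀ ℝ) =
      ∑ q ∈ c.support, c q • (Finsupp.single q.1 (1 : ℝ) - Finsupp.single q.2 1) := by
    unfold mol
    rw [Finsupp.linearCombination_apply]
    rfl
  rw [h, map_sum]
  refine Finset.sum_congr rfl fun q _ => ?_
  rw [map_smul, map_sub, Finsupp.linearCombination_single, Finsupp.linearCombination_single,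
    one_smul, one_smul]

lemma reps_nonempty (v : M →₀ ℝ) : (reps p o v).Nonempty := by
  induction v using Finsupp.induction_linear with
  | zero => exact ⟨_, 0, 0, by simp, rfl⟩
  | add f g hf hg =>
      obtain ⟨_, c, b, hc, -⟩ := hf
      obtain ⟨_, d, b', hd, -⟩ := hg
      refine ⟨_, c + d, b + b', ?_, rfl⟩
      rw [map_add, Finsupp.single_add, hc, hd]; abel
  | single x a =>
      refine ⟨_, Finsupp.single (x, o) a, a, ?_, rfl⟩
      rw [mol_single]; abel

lemma reps_bddBelow (v : M →₀ ℝ) : BddBelow (reps p o v) :=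
  ⟨0, by rintro _ ⟨c, b, -, rfl⟩; exact cost_nonneg c⟩

lemma fnorm_nonneg (v : M →₀ ℝ) : 0 ≤ fnorm p o v :=
  le_csInf (reps_nonempty v) (by rintro _ ⟨c, b, -, rfl⟩; exact cost_nonneg c)

lemma fnorm_le {v : M →₀ ℝ} {c : (M × M) →₀ ℝ} {b : ℝ} (h : v = mol c + Finsupp.single o b) :
    fnorm p o v ≤ cost p c :=
  csInf_le (reps_bddBelow v) ⟨c, b, h, rfl⟩

lemma exists_rep (v : M →₀ ℝ) {ε : ℝ} (hε : 0 < ε) :
    ∃ (c : (M × M) →₀ ℝ) (b : ℝ), v = mol c + Finsupp.single o b ∧
      cost p c < fnorm p o v + ε := by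
  obtain ⟨_, ⟨c, b, h, rfl⟩, hlt⟩ := exists_lt_of_csInf_lt (reps_nonempty (p := p) (o := o) v)
    (show sInf (reps p o v) < fnorm p o v + ε by unfold fnorm; linarith)
  exact ⟨c, b, h, hlt⟩

lemma fnorm_add (hp : 0 < p) (hp1 : p ≤ 1) (v w : M →₀ ℝ) :
    fnorm p o (v + w) ≤ fnorm p o v + fnorm p o w := by
  apply le_of_forall_pos_le_add
  intro ε hε
  obtain ⟨c, b, hc, hc'⟩ := exists_rep (p := p) (o := o) v (half_pos hε)
  obtain ⟨d, b', hd, hd'⟩ := exists_rep (p := p) (o := o) w (half_pos hε)
  calc fnorm p o (v + w) ≤ cost p (c + d) := fnorm_le (b := b + b') (by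
        rw [map_add, Finsupp.single_add]; nth_rewrite 1 [hc, hd]; abel)
    _ ≤ cost p c + cost p d := cost_add hp hp1 c d
    _ ≤ fnorm p o v + fnorm p o w + ε := by linarith

lemma fnorm_smul_le (hp : 0 < p) (a : ℝ) (v : M →₀ ℝ) :
    fnorm p o (a • v) ≤ |a| ^ p * fnorm p o v := by
  apply le_of_forall_pos_le_add
  intro ε hε
  have h1 : 0 < |a| ^ p + 1 := by positivity
  obtain ⟨c, b, hc, hc'⟩ := exists_rep (p := p) (o := o) v (div_pos hε h1)
  calc fnorm p o (a • v) ≤ cost p (a • c) := fnorm_le (b := a * b) (by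
        rw [map_smul]; nth_rewrite 1 [hc]; rw [smul_add, Finsupp.smul_single, smul_eq_mul])
    _ = |a| ^ p * cost p c := cost_smul hp a c
    _ ≤ |a| ^ p * (fnorm p o v + ε / (|a| ^ p + 1)) := by gcongr
    _ ≤ |a| ^ p * fnorm p o v + ε := by
        rw [mul_add]
        gcongr
        rw [mul_div_assoc', div_le_iff₀ h1]
        nlinarith [Real.rpow_nonneg (abs_nonneg a) p]

lemma fnorm_zero (hp : 0 < p) : fnorm p o (0 : M →₀ ℝ) = 0 := by
  refine le_antisymm ?_ (fnorm_nonneg _)
  have := fnorm_smul_le (o := o) hp 0 (0 : M →₀ ℝ)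
  simpa [Real.zero_rpow hp.ne'] using this

lemma fnorm_smul (hp : 0 < p) (a : ℝ) (v : M →₀ ℝ) :
    fnorm p o (a • v) = |a| ^ p * fnorm p o v := by
  refine le_antisymm (fnorm_smul_le hp a v) ?_
  by_cases ha : a = 0
  · subst ha
    simp [Real.zero_rpow hp.ne', fnorm_zero hp]
  · have h1 := fnorm_smul_le (o := o) hp a⁻¹ (a • v)
    rw [smul_smul, inv_mul_cancel₀ ha, one_smul, abs_inv, Real.inv_rpow (abs_nonneg _)] at h1
    have h2 : 0 < |a| ^ p := by positivity
    calc |a| ^ p * fnorm p o v ≤ |a| ^ p * ((|a| ^ p)⁻¹ * fnorm p o (a • v)) := by gcongr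
      _ = fnorm p o (a • v) := by field_simp

/-- The seminormed group of finitely supported functions with the free space seminorm. -/
noncomputable def fseminorm (o : M) (hp : 0 < p) (hp1 : p ≤ 1) : AddGroupSeminorm (M →₀ ℝ) where
  toFun := fnorm p o
  map_zero' := fnorm_zero hp
  add_le' := fnorm_add hp hp1
  neg' := by
    intro v
    have := fnorm_smul (o := o) hp (-1) v
    simpa using this

/-- A Lipschitz map vanishing at `o` extends to finitely supported functions with the right
bound. -/
lemma norm_lin_le {Y : Type*} [NormedAddCommGroup Y] [Module ℝ Y]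
    (hY : PNormed p Y) (f : M → Y) (L : ℝ) (hL : 0 ≤ L) (hfo : f o = 0)
    (hf : ∀ x y, ‖f x - f y‖ ≤ (L * dist x y) ^ p) (v : M →₀ ℝ) :
    ‖Finsupp.linearCombination ℝ f v‖ ≤ L ^ p * fnorm p o v := by
  apply le_of_forall_pos_le_add
  intro ε hε
  have h1 : 0 < L ^ p + 1 := by positivity
  obtain ⟨c, b, hc, hc'⟩ := exists_rep (p := p) (o := o) v (div_pos hε h1)
  have e : Finsupp.linearCombination ℝ f v = ∑ q ∈ c.support, c q • (f q.1 - f q.2) := by
    nth_rewrite 1 [hc]
    rw [map_add, Finsupp.linearCombination_single, hfo, smul_zero, add_zero, linComb_mol]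
  rw [e]
  calc ‖∑ q ∈ c.support, c q • (f q.1 - f q.2)‖
      ≤ ∑ q ∈ c.support, ‖c q • (f q.1 - f q.2)‖ := norm_sum_le _ _
    _ ≤ ∑ q ∈ c.support, L ^ p * (|c q| ^ p * dist q.1 q.2 ^ p) := by
        refine Finset.sum_le_sum fun q _ => ?_
        rw [hY.norm_smul]
        calc |c q| ^ p * ‖f q.1 - f q.2‖ ≤ |c q| ^ p * (L * dist q.1 q.2) ^ p := by
              gcongr; exact hf _ _
          _ = _ := by rw [Real.mul_rpow hL dist_nonneg]; ring
    _ = L ^ p * cost p c := by rw [← Finset.mul_sum]; rfl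
    _ ≤ L ^ p * (fnorm p o v + ε / (L ^ p + 1)) := by gcongr
    _ ≤ L ^ p * fnorm p o v + ε := by
        rw [mul_add]
        gcongr
        rw [mul_div_assoc', div_le_iff₀ h1]
        nlinarith [Real.rpow_nonneg hL p]

lemma fnorm_single_sub (hp : 0 < p) (hp1 : p ≤ 1) (x y : M) :
    fnorm p o (Finsupp.single x 1 - Finsupp.single y 1) = dist x y ^ p := by
  apply le_antisymm
  · have h := fnorm_le (p := p) (o := o) (v := Finsupp.single x 1 - Finsupp.single y 1)
      (c := Finsupp.single (x, y) 1) (b := 0) (by rw [mol_single]; simp)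
    refine h.trans (le_of_eq ?_)
    unfold cost
    rw [Finsupp.sum_single_index (by simp [Real.zero_rpow hp.ne'])]
    simp
  · refine le_csInf (reps_nonempty _) ?_
    rintro _ ⟨c, b, hc, rfl⟩
    set g : M → ℝ := fun z => dist z y - dist o y with hg
    have hgl : ∀ z w, |g z - g w| ≤ dist z w := fun z w => by
      rw [hg]
      simp only [sub_sub_sub_cancel_right]
      exact abs_dist_sub_le z w y
    have e : dist x y = ∑ q ∈ c.support, c q * (g q.1 - g q.2) := by
      have h1 : Finsupp.linearCombination ℝ g (Finsupp.single x 1 - Finsupp.single y 1) =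
          dist x y := by
        rw [map_sub, Finsupp.linearCombination_single, Finsupp.linearCombination_single]
        simp [hg]
      rw [← h1, hc, map_add, Finsupp.linearCombination_single]
      have h0 : g o = 0 := by simp [hg]
      rw [h0, smul_zero, add_zero, linComb_mol]
      rfl
    have h2 : dist x y ≤ ∑ q ∈ c.support, |c q| * dist q.1 q.2 := by
      rw [e]
      refine Finset.sum_le_sum fun q _ => ?_
      calc c q * (g q.1 - g q.2) ≤ |c q * (g q.1 - g q.2)| := le_abs_self _
        _ = |c q| * |g q.1 - g q.2| := abs_mul _ _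
        _ ≤ |c q| * dist q.1 q.2 := by gcongr; exact hgl _ _
    calc dist x y ^ p ≤ (∑ q ∈ c.support, |c q| * dist q.1 q.2) ^ p :=
          Real.rpow_le_rpow dist_nonneg h2 hp.le
      _ ≤ ∑ q ∈ c.support, (|c q| * dist q.1 q.2) ^ p := by
          refine Finset.le_sum_of_subadditive_on_pred (fun t : ℝ => t ^ p) (fun t => 0 ≤ t)
            (by simp [Real.zero_rpow hp.ne']) ?_ (fun a b ha hb => add_nonneg ha hb) _
            (fun q _ => by positivity)
          intro a b ha hb
          exact Real.rpow_add_le_add_rpow ha hb hp.le hp1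
      _ = cost p c := by
          unfold cost Finsupp.sum
          refine Finset.sum_congr rfl fun q _ => ?_
          rw [Real.mul_rpow (abs_nonneg _) dist_nonneg]

/-- Existence of Lipschitz free `p`-spaces, with the formula for the norm. -/
theorem exists_isLipFree_norm (hp : 0 < p) (hp1 : p ≤ 1) (M : Type u) [MetricSpace M] (o : M) :
    ∃ (X : Type u) (_ : NormedAddCommGroup X) (_ : Module ℝ X) (δ : M → X), IsLipFree p o δ ∧
      ∀ v : M →₀ ℝ, ‖Finsupp.linearCombination ℝ δ v‖ = fnorm p o v := by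
  classical
  let _ : SeminormedAddCommGroup (M →₀ ℝ) := (fseminorm o hp hp1).toSeminormedAddCommGroup
  have hnorm : ∀ v : M →₀ ℝ, ‖v‖ = fnorm p o v := fun v => rfl
  have hsm : ∀ (a : ℝ) (v : M →₀ ℝ), ‖a • v‖ = |a| ^ p * ‖v‖ := fun a v => by
    rw [hnorm, hnorm, fnorm_smul hp]
  have : UniformContinuousConstSMul ℝ (M →₀ ℝ) := by
    constructor
    intro a
    rw [Metric.uniformContinuous_iff]
    intro ε hε
    have h1 : 0 < |a| ^ p + 1 := by positivity
    refine ⟨ε / (|a| ^ p + 1), by positivity, fun {v w} hvw => ?_⟩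
    rw [dist_eq_norm] at hvw ⊢
    rw [← smul_sub, hsm]
    calc |a| ^ p * ‖v - w‖ ≤ (|a| ^ p + 1) * ‖v - w‖ := by gcongr; linarith
      _ < (|a| ^ p + 1) * (ε / (|a| ^ p + 1)) := by gcongr
      _ = ε := by field_simp
  let X := UniformSpace.Completion (M →₀ ℝ)
  let e : (M →₀ ℝ) →L[ℝ] X :=
    { toFun := fun v => (v : UniformSpace.Completion (M →₀ ℝ))
      map_add' := fun v w => UniformSpace.Completion.coe_add v w
      map_smul' := fun a v => UniformSpace.Completion.coe_smul a v
      cont := UniformSpace.Completion.continuous_coe _ }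
  have he : ∀ v : M →₀ ℝ, e v = (v : UniformSpace.Completion (M →₀ ℝ)) := fun v => rfl
  have hen : ∀ v : M →₀ ℝ, ‖e v‖ = fnorm p o v := fun v => UniformSpace.Completion.norm_coe v
  have hed : DenseRange e := UniformSpace.Completion.denseRange_coe
  have hei : IsUniformInducing e := UniformSpace.Completion.isUniformInducing_coe _
  have hXp : PNormed p X := by
    constructor
    intro a x
    induction x using UniformSpace.Completion.induction_on with
    | hp => exact isClosed_eq (continuous_const_smul a).norm (continuous_const.mul continuous_norm)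
    | ih v =>
        rw [← UniformSpace.Completion.coe_smul, UniformSpace.Completion.norm_coe,
          UniformSpace.Completion.norm_coe, hsm]
  refine ⟨X, inferInstance, inferInstance, fun x => e (Finsupp.single x 1), ?_, ?_⟩
  swap
  · intro v
    have h1 : Finsupp.linearCombination ℝ (fun x => e (Finsupp.single x 1)) v = e v := by
      induction v using Finsupp.induction_linear with
      | zero => rw [map_zero, map_zero]
      | add f g hf hg => rw [map_add, map_add, hf, hg]
      | single x a =>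
          rw [Finsupp.linearCombination_single, ← map_smul, Finsupp.smul_single, smul_eq_mul,
            mul_one]
    rw [h1, hen]
  refine ⟨inferInstance, hXp, ?_, ?_, ?_, ?_⟩
  · rw [← norm_eq_zero, hen]
    refine le_antisymm ?_ (fnorm_nonneg _)
    have := fnorm_le (p := p) (o := o) (v := Finsupp.single o 1) (c := 0) (b := 1) (by simp)
    simpa [cost] using this
  · intro x y
    rw [← map_sub, hen, fnorm_single_sub hp hp1]
  · refine hed.mono ?_
    rintro _ ⟨v, rfl⟩
    change e v ∈ Submodule.span ℝ _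
    induction v using Finsupp.induction_linear with
    | zero => rw [map_zero]; exact Submodule.zero_mem _
    | add f g hf hg => rw [map_add]; exact Submodule.add_mem _ hf hg
    | single x a =>
        have : Finsupp.single x a = a • Finsupp.single x (1 : ℝ) := by simp
        rw [this, map_smul]
        exact Submodule.smul_mem _ _ (Submodule.subset_span ⟨x, rfl⟩)
  · intro Y _ _ _ hY f L hL hfo hf
    have hcs := continuousSMul_of_pnormed hp hY
    have hb := norm_lin_le hY f L hL hfo hf
    let F : (M →₀ ℝ) →L[ℝ] Y :=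
      { toLinearMap := Finsupp.linearCombination ℝ f
        cont := by
          have hLp : 0 ≤ L ^ p := by positivity
          refine AddMonoidHomClass.continuous_of_bound (Finsupp.linearCombination ℝ f) (L ^ p) ?_
          intro v
          exact hb v }
    have hF : ∀ v, F v = Finsupp.linearCombination ℝ f v := fun v => rfl
    let T : X →L[ℝ] Y := F.extend e
    have hTe : ∀ v, T (e v) = F v := fun v => F.extend_eq hed hei v
    refine ⟨T, ⟨fun x => ?_, fun v => ?_⟩, ?_⟩
    · rw [hTe, hF, Finsupp.linearCombination_single, one_smul]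
    · refine hed.induction_on v ?_ ?_
      · exact isClosed_le T.continuous.norm (continuous_const.mul continuous_norm)
      · intro w
        rw [hTe, hF, hen]
        exact hb w
    · rintro T' ⟨hT', -⟩
      have : ∀ v, T' (e v) = T (e v) := by
        intro v
        induction v using Finsupp.induction_linear with
        | zero => simp
        | add f g hf hg => simp [hf, hg]
        | single x a =>
            have hs : Finsupp.single x a = a • Finsupp.single x (1 : ℝ) := by simp
            rw [hs, map_smul, map_smul, map_smul, hT', hTe, hF,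
              Finsupp.linearCombination_single, one_smul]
      ext v
      refine hed.induction_on v ?_ this
      exact isClosed_eq T'.continuous T.continuous

/-- Existence of Lipschitz free `p`-spaces. -/
theorem exists_isLipFree (hp : 0 < p) (hp1 : p ≤ 1) (M : Type u) [MetricSpace M] (o : M) :
    ∃ (X : Type u) (_ : NormedAddCommGroup X) (_ : Module ℝ X) (δ : M → X), IsLipFree p o δ := by
  obtain ⟨X, h1, h2, δ, h, -⟩ := exists_isLipFree_norm hp hp1 M o
  exact ⟨X, h1, h2, δ, h⟩

end existence

/-- **Main theorem.**  Let `0 < p ≤ 1` and let `M` be a metric space with base point `o` whose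
completion is scattered.  Then a Lipschitz free `p`-space over `M` exists and every Lipschitz free
`p`-space over `M` has the approximation property. -/
theorem result (p : ℝ) (hp : 0 < p) (hp1 : p ≤ 1) (M : Type u) [MetricSpace M] (o : M)
    (hM : IsScattered (UniformSpace.Completion M)) :
    (∃ (X : Type u) (_ : NormedAddCommGroup X) (_ : Module ℝ X) (δ : M → X),
      IsLipFree p o δ) ∧
    ∀ (X : Type u) [NormedAddCommGroup X] [Module ℝ X] (δ : M → X),
      IsLipFree p o δ → HasAP X :=
  ⟨exists_isLipFree hp hp1 M o, fun _ _ _ _ h => (h.toCompletion hp).hasAP_of_complete hp hM⟩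

end Pool.Agent.helper27.AP7.ScatteredAP
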