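import Mathlib
import Pool.Agent.helper27.Enflo3
import Pool.Agent.helper27.GK
import Pool.Agent.helper27.AP7.ScatteredAP

/-!
# A countable discrete metric space whose Lipschitz free space fails the approximation property

Main theorem (`result`): there is a countable metric space `M`, all of whose points are isolated,
such that the Lipschitz free (Banach) space of `M` fails the approximation property (AP).

Outline of the proof.

* `Pool.Agent.helper27.Enflo.exists_data` (files `Expsum`, `Enflo1`, `Enflo2`, `Enflo3`): a real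
  normed space `V`, spanned by a sequence, with vectors `A i` and functionals `f i` such that
  `∑ f i v • A i = 0` for all `v` while `∑ f i (A i) ≠ 0`, with quantitative smallness.  This is an
  Enflo-Davie type construction, made deterministic with quadratic and cubic exponential sums
  over the fields with `5 ^ (k + 2)` elements.  It shows that the completion of `V` fails AP.
* `Pool.Agent.helper27.GK.lifting`: a Godefroy-Kalton type linear lifting `V → Y` of a
  `1`-Lipschitz map `V → Y`, obtained by smoothing along a summable sequence of directions.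
* `DS d`: the discrete metric space `{(d j, 1 / (n + 1)) : j ≤ n}` in `V × ℝ`, where `d` is a dense
  sequence in `V`.  The Dirac map of `M = DS d` extends by completeness of the free space to
  `V × {0}`, which lies in the completion of `M`, and the functionals `f i` extend to the free
  space through the first projection.  Lifting the data of `V` to the free space of `M`, the trace
  criterion `not_hasAP` shows that the free space of `M` fails AP.
-/

set_option autoImplicit false

open Filter Topology Set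

namespace Pool.Agent.helper27.AP7.DiscreteFailsAP

universe u

/-- `(X, δ)` is the Lipschitz free (Banach) space over the pointed metric space `(M, o)`: `X` is a
Banach space, `δ : M → X` is an isometric embedding with `δ o = 0` whose range spans a dense
subspace, and every Lipschitz map `f`, with constant `L` and `f o = 0`, into a Banach space factors
as `T ∘ δ` for a unique bounded linear `T` of norm at most `L`. -/
structure IsLipschitzFree {M : Type*} {X : Type u} [MetricSpace M] [NormedAddCommGroup X]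
    [NormedSpace ℝ X] (o : M) (δ : M → X) : Prop where
  complete : CompleteSpace X
  map_base : δ o = 0
  isometry : Isometry δ
  dense_span : Dense (Submodule.span ℝ (range δ) : Set X)
  exists_lift : ∀ (Y : Type u) [NormedAddCommGroup Y] [NormedSpace ℝ Y] [CompleteSpace Y]
    (f : M → Y) (L : NNReal), f o = 0 → LipschitzWith L f →
    ∃! T : X →L[ℝ] Y, (∀ x, T (δ x) = f x) ∧ ‖T‖ ≤ L

/-- The approximation property: the identity is approximated, uniformly on every compact set,
by bounded linear operators of finite rank. -/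
def HasAP (X : Type*) [NormedAddCommGroup X] [NormedSpace ℝ X] : Prop :=
  ∀ K : Set X, IsCompact K → ∀ ε > 0, ∃ T : X →L[ℝ] X,
    FiniteDimensional ℝ (LinearMap.range (T : X →ₗ[ℝ] X)) ∧ ∀ x ∈ K, ‖T x - x‖ < ε

section trace

variable {Y : Type*} [NormedAddCommGroup Y] [NormedSpace ℝ Y] [CompleteSpace Y]
  {ι : Type*} (F : ι → Y →L[ℝ] ℝ) (μ : ι → Y) (w : ι → ℝ) (C B : ℝ)

lemma summable_smul (hws : Summable w) (hF : ∀ i, ‖F i‖ ≤ C) (hC : 0 ≤ C)
    (hμ : ∀ i, ‖μ i‖ ≤ B * w i) (v : Y) : Summable fun i => F i v • μ i := by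
  refine Summable.of_norm_bounded (g := fun i => (C * ‖v‖ * B) * w i) (hws.mul_left _) ?_
  intro i
  rw [norm_smul]
  have h1 : ‖F i v‖ ≤ C * ‖v‖ := ((F i).le_opNorm v).trans (by gcongr; exact hF i)
  calc ‖F i v‖ * ‖μ i‖ ≤ (C * ‖v‖) * (B * w i) := by
        gcongr
        exact hμ i
    _ = _ := by ring

/-- The trace of a finite rank operator vanishes. -/
lemma trace_finite (hws : Summable w) (hF : ∀ i, ‖F i‖ ≤ C) (hC : 0 ≤ C)
    (hμ : ∀ i, ‖μ i‖ ≤ B * w i) (hrel : ∀ v, ∑' i, F i v • μ i = 0) (T : Y →L[ℝ] Y)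
    (hT : FiniteDimensional ℝ (LinearMap.range (T : Y →ₗ[ℝ] Y))) :
    ∑' i, F i (T (μ i)) = 0 := by
  classical
  set R := LinearMap.range (T : Y →ₗ[ℝ] Y) with hR
  let b := Module.finBasis ℝ R
  let T' : Y →L[ℝ] R := T.rangeRestrict
  let φ : Fin (Module.finrank ℝ R) → Y →L[ℝ] ℝ := fun j =>
    (LinearMap.toContinuousLinearMap (b.coord j)).comp T'
  have hTv : ∀ v, T v = ∑ j, φ j v • (b j : Y) := by
    intro v
    have h1 := b.sum_repr (T' v)
    have h2 : ((∑ j, (b.repr (T' v)) j • b j : R) : Y) = ((T' v : R) : Y) := by rw [h1]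
    rw [Submodule.coe_sum] at h2
    have h3 : ((T' v : R) : Y) = T v := rfl
    rw [← h3, ← h2]
    rfl
  have h1 : ∀ i, F i (T (μ i)) = ∑ j, φ j (F i (b j : Y) • μ i) := by
    intro i
    rw [hTv, map_sum]
    refine Finset.sum_congr rfl fun j _ => ?_
    rw [map_smul, map_smul, smul_eq_mul, smul_eq_mul, mul_comm]
  simp_rw [h1]
  have hs : ∀ j, Summable fun i => F i (b j : Y) • μ i := fun j =>
    summable_smul F μ w C B hws hF hC hμ _
  rw [Summable.tsum_finsetSum (fun j _ => (hs j).mapL (φ j))]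
  refine Finset.sum_eq_zero fun j _ => ?_
  rw [← ContinuousLinearMap.map_tsum (φ j) (hs j), hrel, map_zero]

/-- The trace criterion for the failure of the approximation property. -/
theorem not_hasAP (hw : ∀ i, 0 < w i) (hws : Summable w) (hF : ∀ i, ‖F i‖ ≤ C) (hC : 0 ≤ C)
    (hμ0 : Tendsto (fun i => ‖μ i‖ / w i) cofinite (𝓝 0))
    (hrel : ∀ v, ∑' i, F i v • μ i = 0) (htr : ∑' i, F i (μ i) ≠ 0) : ¬ HasAP Y := by
  intro hAP
  obtain ⟨B, hB⟩ := hμ0.bddAbove_range_of_cofinite
  have hμ : ∀ i, ‖μ i‖ ≤ B * w i := fun i => by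
    have := hB ⟨i, rfl⟩
    rwa [← div_le_iff₀ (hw i)]
  have hK : IsCompact (insert 0 (range fun i => (w i)⁻¹ • μ i)) := by
    apply Tendsto.isCompact_insert_range_of_cofinite
    rw [tendsto_zero_iff_norm_tendsto_zero]
    refine hμ0.congr fun i => ?_
    rw [norm_smul, norm_inv, Real.norm_of_nonneg (hw i).le, inv_mul_eq_div]
  have key : ∀ ε > 0, |∑' i, F i (μ i)| ≤ (C * ∑' i, w i) * ε := by
    intro ε hε
    obtain ⟨T, hT, hTε⟩ := hAP _ hK ε hε
    have h0 := trace_finite F μ w C B hws hF hC hμ hrel T hT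
    have hsT : Summable fun i => F i (T (μ i)) := by
      refine Summable.of_norm_bounded (g := fun i => (C * ‖T‖ * B) * w i) (hws.mul_left _) ?_
      intro i
      calc ‖F i (T (μ i))‖ ≤ ‖F i‖ * ‖T (μ i)‖ := (F i).le_opNorm _
        _ ≤ C * (‖T‖ * ‖μ i‖) := by
            gcongr
            · exact hF i
            · exact T.le_opNorm _
        _ ≤ C * (‖T‖ * (B * w i)) := by gcongr; exact hμ i
        _ = _ := by ring
    have hs1 : Summable fun i => F i (μ i) := by
      refine Summable.of_norm_bounded (g := fun i => (C * B) * w i) (hws.mul_left _) ?_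
      intro i
      calc ‖F i (μ i)‖ ≤ ‖F i‖ * ‖μ i‖ := (F i).le_opNorm _
        _ ≤ C * (B * w i) := by
            gcongr
            · exact hF i
            · exact hμ i
        _ = _ := by ring
    have h1 : ∀ i, ‖F i (T (μ i)) - F i (μ i)‖ ≤ C * ε * w i := by
      intro i
      have h2 := hTε ((w i)⁻¹ • μ i) (Or.inr ⟨i, rfl⟩)
      have h3 : ‖T (μ i) - μ i‖ ≤ w i * ε := by
        have e : T (μ i) - μ i = w i • (T ((w i)⁻¹ • μ i) - (w i)⁻¹ • μ i) := by
          rw [map_smul, smul_sub, smul_smul, smul_smul, mul_inv_cancel₀ (hw i).ne', one_smul,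
            one_smul]
        rw [e, norm_smul, Real.norm_of_nonneg (hw i).le]
        have := hw i
        gcongr
      rw [← map_sub]
      calc ‖F i (T (μ i) - μ i)‖ ≤ ‖F i‖ * ‖T (μ i) - μ i‖ := (F i).le_opNorm _
        _ ≤ C * (w i * ε) := by
            gcongr
            exact hF i
        _ = _ := by ring
    have h2 : ∑' i, F i (μ i) = -∑' i, (F i (T (μ i)) - F i (μ i)) := by
      rw [hsT.tsum_sub hs1, h0]; ring
    rw [h2, abs_neg]
    calc |∑' i, (F i (T (μ i)) - F i (μ i))| ≤ ∑' i, C * ε * w i :=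
          tsum_of_norm_bounded ((hws.mul_left _).hasSum) h1
      _ = (C * ∑' i, w i) * ε := by rw [tsum_mul_left]; ring
  apply htr
  rw [← abs_eq_zero]
  apply le_antisymm _ (abs_nonneg _)
  apply Pool.Agent.helper27.GK.le_of_forall_small (c := C * ∑' i, w i)
  intro t ht
  rw [zero_add]
  exact key t ht

end trace
section discrete

set_option linter.unusedSectionVars false

variable {X : Type} [NormedAddCommGroup X] [NormedSpace ℝ X]

/-- The discrete set: at height `1 / (n + 1)` we put the first `n + 1` points of the sequence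
`d`. -/
def DS (d : ℕ → X) : Set (X × ℝ) := {z | ∃ n j : ℕ, j ≤ n ∧ z = (d j, 1 / ((n : ℝ) + 1))}

lemma DS_countable (d : ℕ → X) : (DS d).Countable := by
  have : DS d ⊆ range (fun q : ℕ × ℕ => (d q.2, 1 / ((q.1 : ℝ) + 1))) := by
    rintro z ⟨n, j, -, rfl⟩
    exact ⟨(n, j), rfl⟩
  exact (countable_range _).mono this

lemma DS_discrete (d : ℕ → X) : DiscreteTopology (DS d) := by
  rw [discreteTopology_iff_isOpen_singleton]
  rintro ⟨z, n, j, hj, rfl⟩
  -- the points of height at least `1 / (n + 2)` form a finite set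
  set S : Set (X × ℝ) := {z | ∃ m j : ℕ, m ≤ n ∧ j ≤ m ∧ z = (d j, 1 / ((m : ℝ) + 1))} with hS
  have hSf : S.Finite := by
    have : S ⊆ (fun q : ℕ × ℕ => (d q.2, 1 / ((q.1 : ℝ) + 1))) '' (Iic n ×ˢ Iic n) := by
      rintro z ⟨m, j, hm, hj, rfl⟩
      exact ⟨(m, j), ⟨hm, hj.trans hm⟩, rfl⟩
    exact (((finite_Iic n).prod (finite_Iic n)).image _).subset this
  set z : X × ℝ := (d j, 1 / ((n : ℝ) + 1)) with hz
  have hU : IsOpen ({y : X × ℝ | 1 / ((n : ℝ) + 2) < y.2} ∩ (S \ {z})ᶜ) := by
    refine (isOpen_lt continuous_const continuous_snd).inter ?_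
    exact (hSf.subset sdiff_subset).isClosed.isOpen_compl
  have he : ({(⟨z, n, j, hj, rfl⟩ : DS d)} : Set (DS d)) =
      Subtype.val ⁻¹' ({y : X × ℝ | 1 / ((n : ℝ) + 2) < y.2} ∩ (S \ {z})ᶜ) := by
    ext ⟨y, m, i, hi, hy⟩
    simp only [mem_singleton_iff, mem_preimage, mem_inter_iff, mem_ofPred_eq,
      mem_compl_iff, Set.mem_sdiff, not_and, not_not]
    constructor
    · intro h
      have h' : y = z := congrArg Subtype.val h
      refine ⟨?_, fun _ => h'⟩
      rw [h', hz]
      simp only
      apply one_div_lt_one_div_of_lt (by positivity)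
      linarith
    · rintro ⟨h1, h2⟩
      apply Subtype.ext
      apply h2
      refine ⟨m, i, ?_, hi, hy⟩
      rw [hy] at h1
      simp only at h1
      by_contra hcon
      push Not at hcon
      have h3 : (n : ℝ) + 2 ≤ (m : ℝ) + 1 := by
        have : n + 1 ≤ m := hcon
        have : ((n + 1 : ℕ) : ℝ) ≤ m := by exact_mod_cast this
        push_cast at this
        linarith
      have h4 : 1 / ((m : ℝ) + 1) ≤ 1 / ((n : ℝ) + 2) :=
        one_div_le_one_div_of_le (by positivity) h3
      linarith
  rw [he]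
  exact hU.preimage continuous_subtype_val

lemma DS_approx {d : ℕ → X} (hd : DenseRange d) (x : X) :
    ∃ z : ℕ → DS d, Tendsto (fun n => (z n : X × ℝ)) atTop (𝓝 (x, 0)) := by
  have h1 : ∀ n : ℕ, ∃ j, dist x (d j) < 1 / ((n : ℝ) + 1) := fun n =>
    hd.exists_dist_lt x (by positivity)
  choose j hj using h1
  refine ⟨fun n => ⟨(d (j n), 1 / (((max n (j n) : ℕ) : ℝ) + 1)), max n (j n), j n,
    le_max_right _ _, rfl⟩, ?_⟩
  simp only
  refine Tendsto.prodMk_nhds ?_ ?_
  · rw [tendsto_iff_dist_tendsto_zero]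
    refine squeeze_zero (fun n => dist_nonneg) (fun n => ?_)
      (tendsto_one_div_add_atTop_nhds_zero_nat (𝕜 := ℝ))
    rw [dist_comm]
    exact (hj n).le
  · refine squeeze_zero (fun n => by positivity) (fun n => ?_)
      (tendsto_one_div_add_atTop_nhds_zero_nat (𝕜 := ℝ))
    apply one_div_le_one_div_of_le (by positivity)
    have : (n : ℝ) ≤ ((max n (j n) : ℕ) : ℝ) := by exact_mod_cast le_max_left _ _
    linarith

/-- The free space over `DS d` fails the approximation property, if `X` carries the data of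
`Enflo.exists_data`. -/
theorem not_hasAP_of_data (x : ℕ → X) (hx : Submodule.span ℝ (range x) = ⊤) {ι : Type}
    (f : ι → X →L[ℝ] ℝ) (A : ι → X) (w : ι → ℝ) (hw : ∀ i, 0 < w i) (hws : Summable w)
    (hf : ∀ i v, |f i v| ≤ ‖v‖) (hA : Tendsto (fun i => ‖A i‖ / w i) cofinite (𝓝 0))
    (hfin : ∀ v, (Function.support fun i => f i v).Finite) (hrel : ∀ v, ∑ᶠ i, f i v • A i = 0)
    (htr : ∑' i, f i (A i) ≠ 0) (d : ℕ → X) (hd : DenseRange d) (o : DS d)
    {Y : Type} [NormedAddCommGroup Y] [NormedSpace ℝ Y] (δ : DS d → Y)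
    (hfree : IsLipschitzFree o δ) : ¬ HasAP Y := by
  classical
  have := hfree.complete
  -- extension of `δ` to `X`
  choose z hz using fun v => DS_approx hd v
  have hcauchy : ∀ v, ∃ y : Y, Tendsto (fun n => δ (z v n)) atTop (𝓝 y) := by
    intro v
    apply cauchySeq_tendsto_of_complete
    have h1 : CauchySeq (fun n => (z v n : X × ℝ)) := (hz v).cauchySeq
    have h2 : CauchySeq (z v) := by
      rw [Metric.cauchySeq_iff] at h1 ⊢
      exact h1
    exact hfree.isometry.uniformContinuous.comp_cauchySeq h2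
  choose δX hδX using hcauchy
  have hδlip : ∀ u v, ‖δX u - δX v‖ ≤ ‖u - v‖ := by
    intro u v
    have h1 : Tendsto (fun n => dist (δ (z u n)) (δ (z v n))) atTop
        (𝓝 (dist (δX u) (δX v))) := (hδX u).dist (hδX v)
    have h2 : Tendsto (fun n => dist (z u n : X × ℝ) (z v n)) atTop
        (𝓝 (dist ((u, 0) : X × ℝ) (v, 0))) := (hz u).dist (hz v)
    have h3 : ∀ n, dist (δ (z u n)) (δ (z v n)) = dist (z u n : X × ℝ) (z v n) := fun n =>
      hfree.isometry.dist_eq _ _
    simp_rw [h3] at h1
    have h4 := tendsto_nhds_unique h1 h2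
    rw [← dist_eq_norm, h4, ← dist_eq_norm, Prod.dist_eq]
    simp
  -- functionals on `Y`
  have hF : ∀ i, ∃ T : Y →L[ℝ] ℝ, (∀ y, T (δ y) = f i ((y : X × ℝ).1 - (o : X × ℝ).1)) ∧
      ‖T‖ ≤ 1 := by
    intro i
    obtain ⟨T, ⟨hT1, hT2⟩, -⟩ := hfree.exists_lift ℝ
      (fun y : DS d => f i ((y : X × ℝ).1 - (o : X × ℝ).1)) 1 (by simp) (by
        apply LipschitzWith.of_dist_le_mul
        intro a b
        rw [Real.dist_eq, ← map_sub, NNReal.coe_one, one_mul]
        refine (hf i _).trans ?_
        rw [sub_sub_sub_cancel_right, ← dist_eq_norm, Subtype.dist_eq, Prod.dist_eq]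
        exact le_max_left _ _)
    exact ⟨T, hT1, by simpa using hT2⟩
  choose F hF hFn using hF
  have hFδ : ∀ i v, F i (δX v) = f i v + (-f i (o : X × ℝ).1) := by
    intro i v
    have h1 : Tendsto (fun n => F i (δ (z v n))) atTop (𝓝 (F i (δX v))) :=
      ((F i).continuous.tendsto _).comp (hδX v)
    have h2 : Tendsto (fun n => f i ((z v n : X × ℝ).1 - (o : X × ℝ).1)) atTop
        (𝓝 (f i (v - (o : X × ℝ).1))) := by
      have h3 : Tendsto (fun n => (z v n : X × ℝ).1) atTop (𝓝 v) :=
        (continuous_fst.tendsto _).comp (hz v)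
      exact ((f i).continuous.tendsto _).comp (h3.sub_const _)
    simp_rw [hF] at h1
    rw [tendsto_nhds_unique h1 h2, map_sub]
    ring
  obtain ⟨ρ, hρ1, hρ2⟩ := Pool.Agent.helper27.GK.lifting δX hδlip x
  have hρF : ∀ i n, F i (ρ n) = f i (x n) := fun i n => hρ2 (F i) (f i) _ (hFδ i) n
  -- lifts of vectors
  have hlift : ∀ v : X, ∃ a : ℕ →₀ ℝ, Finsupp.linearCombination ℝ x a = v := by
    intro v
    have : v ∈ Submodule.span ℝ (range x) := by rw [hx]; trivial
    rwa [← Finsupp.range_linearCombination] at this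
  choose a ha using fun i => hlift (A i)
  set μ : ι → Y := fun i => Finsupp.linearCombination ℝ ρ (a i) with hμ
  have hμn : ∀ i, ‖μ i‖ ≤ ‖A i‖ := fun i => by rw [hμ, ← ha i]; exact hρ1 _
  have hFμ : ∀ i j, F i (μ j) = f i (A j) := by
    intro i j
    rw [hμ, ← ha j]
    simp only [Finsupp.linearCombination_apply, Finsupp.sum, map_sum, map_smul, hρF]
  have hμ0 : Tendsto (fun i => ‖μ i‖ / w i) cofinite (𝓝 0) := by
    refine squeeze_zero (fun i => div_nonneg (norm_nonneg _) (hw i).le) (fun i => ?_) hA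
    have := hw i
    gcongr
    exact hμn i
  obtain ⟨B, hB⟩ := hμ0.bddAbove_range_of_cofinite
  have hμB : ∀ i, ‖μ i‖ ≤ B * w i := fun i => by
    have := hB ⟨i, rfl⟩
    rwa [← div_le_iff₀ (hw i)]
  -- the relation
  have hs : ∀ v, Summable fun i => F i v • μ i := fun v =>
    summable_smul F μ w 1 B hws hFn zero_le_one hμB v
  let Ψ : Y →ₗ[ℝ] Y :=
    { toFun := fun v => ∑' i, F i v • μ i
      map_add' := fun u v => by
        rw [← (hs u).tsum_add (hs v)]
        simp_rw [map_add, add_smul]
      map_smul' := fun c v => by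
        rw [RingHom.id_apply, ← (hs v).tsum_const_smul]
        simp_rw [map_smul, smul_smul, smul_eq_mul] }
  have hΨb : ∀ v, ‖Ψ v‖ ≤ (1 * B * ∑' i, w i) * ‖v‖ := by
    intro v
    have h1 : ∀ i, ‖F i v • μ i‖ ≤ (1 * ‖v‖ * B) * w i := by
      intro i
      rw [norm_smul]
      have h1 : ‖F i v‖ ≤ 1 * ‖v‖ := ((F i).le_opNorm v).trans (by gcongr; exact hFn i)
      calc ‖F i v‖ * ‖μ i‖ ≤ (1 * ‖v‖) * (B * w i) := by
            gcongr
            exact hμB i
        _ = _ := by ring
    have h2 := tsum_of_norm_bounded ((hws.mul_left (1 * ‖v‖ * B)).hasSum) h1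
    rw [tsum_mul_left] at h2
    refine h2.trans (le_of_eq ?_)
    ring
  let Ψ' : Y →L[ℝ] Y := Ψ.mkContinuous _ hΨb
  have hΨ0 : Ψ' = 0 := by
    apply ContinuousLinearMap.ext_on hfree.dense_span
    rintro _ ⟨y, rfl⟩
    change ∑' i, F i (δ y) • μ i = 0
    simp_rw [hF]
    set u : X := (y : X × ℝ).1 - (o : X × ℝ).1 with hu
    have hsupp : (Function.support fun i => f i u • μ i) ⊆ ((hfin u).toFinset : Set ι) := by
      intro i hi
      rw [Function.mem_support] at hi
      simp only [Finite.coe_toFinset, Function.mem_support]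
      exact fun h => hi (by rw [h, zero_smul])
    have hsupp' : (Function.support fun i => f i u • A i) ⊆ ((hfin u).toFinset : Set ι) := by
      intro i hi
      rw [Function.mem_support] at hi
      simp only [Finite.coe_toFinset, Function.mem_support]
      exact fun h => hi (by rw [h, zero_smul])
    rw [tsum_eq_sum (s := (hfin u).toFinset) (fun i hi => by
      by_contra hne
      exact hi (hsupp hne))]
    have h1 : ∑ i ∈ (hfin u).toFinset, f i u • μ i =
        Finsupp.linearCombination ℝ ρ (∑ i ∈ (hfin u).toFinset, f i u • a i) := by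
      rw [map_sum]
      simp_rw [map_smul]
      rfl
    have h2 : ∑ i ∈ (hfin u).toFinset, f i u • A i =
        Finsupp.linearCombination ℝ x (∑ i ∈ (hfin u).toFinset, f i u • a i) := by
      rw [map_sum]
      simp_rw [map_smul, ha]
    have h3 := hrel u
    rw [finsum_eq_sum_of_support_subset _ hsupp', h2] at h3
    rw [h1, ← norm_eq_zero]
    apply le_antisymm _ (norm_nonneg _)
    refine (hρ1 _).trans ?_
    rw [h3, norm_zero]
  have hrelY : ∀ v, ∑' i, F i v • μ i = 0 := by
    intro v
    have : Ψ' v = 0 := by rw [hΨ0]; rfl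
    exact this
  refine not_hasAP F μ w 1 hw hws hFn zero_le_one hμ0 hrelY ?_
  simp_rw [hFμ]
  exact htr

end discrete

section existence

/-- Existence of the Lipschitz free space. -/
theorem exists_isLipschitzFree (M : Type u) [MetricSpace M] (o : M) :
    ∃ (X : Type u) (_ : NormedAddCommGroup X) (_ : NormedSpace ℝ X) (δ : M → X),
      IsLipschitzFree o δ := by
  obtain ⟨X, hX1, hX2, δ, h⟩ :=
    ScatteredAP.exists_isLipFree (p := 1) zero_lt_one le_rfl M o
  have hns : ∀ (a : ℝ) (x : X), ‖a • x‖ = |a| * ‖x‖ := by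
    intro a x
    have := h.pnormed.norm_smul a x
    rwa [Real.rpow_one] at this
  let inst : NormedSpace ℝ X :=
    { hX2 with
      norm_smul_le := fun a x => by rw [hns, Real.norm_eq_abs] }
  refine ⟨X, hX1, inst, δ, h.complete, h.map_base, ?_, h.dense_span, ?_⟩
  · apply Isometry.of_dist_eq
    intro x y
    rw [dist_eq_norm, h.norm_sub, Real.rpow_one]
  · intro Y _ _ _ f L hfo hf
    have hY : ScatteredAP.PNormed 1 Y := ⟨fun a x => by
      rw [norm_smul, Real.rpow_one, Real.norm_eq_abs]⟩
    obtain ⟨T, ⟨hT1, hT2⟩, hTu⟩ := h.exists_lift Y f L L.coe_nonneg hfo (fun x y => by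
      rw [Real.rpow_one, ← dist_eq_norm]
      exact hf.dist_le_mul x y)
    simp only [Real.rpow_one] at hT2 hTu
    refine ⟨T, ⟨hT1, ?_⟩, ?_⟩
    · exact ContinuousLinearMap.opNorm_le_bound _ L.coe_nonneg hT2
    · rintro T' ⟨hT'1, hT'2⟩
      exact hTu T' ⟨hT'1, fun v => (T'.le_opNorm v).trans (by gcongr)⟩

end existence

/-- **Main theorem.** There is a countable discrete metric space `M` whose Lipschitz free space
fails the approximation property. -/
theorem result : ∃ (M : Type) (_ : MetricSpace M) (_ : DiscreteTopology M) (_ : Countable M)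
    (o : M) (X : Type) (_ : NormedAddCommGroup X) (_ : NormedSpace ℝ X) (δ : M → X),
    IsLipschitzFree o δ ∧ ¬ HasAP X := by
  obtain ⟨V, hV1, hV2, x, ι, f, A, w, hx, hw, hws, hf, hA, hfin, hrel, htr⟩ :=
    Pool.Agent.helper27.Enflo.exists_data
  have hsep : TopologicalSpace.SeparableSpace V := by
    rw [← TopologicalSpace.isSeparable_univ_iff]
    have h1 : TopologicalSpace.IsSeparable (range x) := (countable_range x).isSeparable
    have h2 := h1.span (R := ℝ)
    rw [hx] at h2
    simpa using h2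
  have hd := TopologicalSpace.denseRange_denseSeq V
  set d := TopologicalSpace.denseSeq V with hdd
  let o : DS d := ⟨(d 0, 1 / (((0 : ℕ) : ℝ) + 1)), 0, 0, le_rfl, rfl⟩
  obtain ⟨X, hX1, hX2, δ, hδ⟩ := exists_isLipschitzFree (DS d) o
  exact ⟨DS d, inferInstance, DS_discrete d, (DS_countable d).to_subtype, o, X, hX1, hX2, δ, hδ,
    not_hasAP_of_data x hx f A w hw hws hf hA hfin hrel htr d hd o δ hδ⟩

end Pool.Agent.helper27.AP7.DiscreteFailsAP
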